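import Pool.Agent.Work.MP_db9399_exp_helper38.Base

/-! THEOREM EXP, block CUT (helper38). -/

set_option autoImplicit false
set_option linter.unusedSectionVars false

namespace Pool.Agent.Work.MP_db9399_exp.helper38

universe u

open Finset Classical
open Pool.Agent.Work.MP_db9399_all (nb)
open Pool.Agent.Work.MP_db9399_qr (cov PEC ins sd PMat W0 imb ZQ Good)
open _root_.MP_db9399_co

namespace CUTAux

lemma closed_subset {α : Type*} [DecidableEq α] (T : Finset α) (f : α → α)
    (h1 : ∀ x ∈ T, f x ∈ T) (h2 : ∀ x ∈ T, f x ≠ x) (h3 : ∀ x ∈ T, f (f x) = x) :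
    ∀ t, 2 * t ≤ T.card → ∃ D ⊆ T, D.card = 2 * t ∧ ∀ x ∈ D, f x ∈ D := by
  intro t
  induction t with
  | zero => exact fun _ => ⟨∅, empty_subset _, by simp, by simp⟩
  | succ t ih =>
    intro ht
    obtain ⟨D, hD, hc, hf⟩ := ih (by omega)
    have hne : (T \ D).Nonempty := by
      rw [← card_pos]
      have := card_sdiff_add_card_eq_card hD
      omega
    obtain ⟨x, hx⟩ := hne
    rw [mem_sdiff] at hx
    have hfx : f x ∉ D := by
      intro h
      have := hf _ h
      rw [h3 x hx.1] at this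
      exact hx.2 this
    refine ⟨insert x (insert (f x) D), ?_, ?_, ?_⟩
    · intro y hy
      rw [mem_insert, mem_insert] at hy
      rcases hy with rfl | rfl | hy
      · exact hx.1
      · exact h1 x hx.1
      · exact hD hy
    · rw [card_insert_of_notMem, card_insert_of_notMem hfx]
      · omega
      · rw [mem_insert, not_or]
        exact ⟨fun h => h2 x hx.1 h.symm, hx.2⟩
    · intro y hy
      rw [mem_insert, mem_insert] at hy ⊢
      rcases hy with rfl | rfl | hy
      · exact Or.inr (Or.inl rfl)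
      · exact Or.inl (h3 x hx.1)
      · exact Or.inr (Or.inr (hf y hy))

variable {m r : ℕ} {V : Type u} [Fintype V] {k d : ℕ} {G : SimpleGraph V} {U : Finset V}
  {F : V → Finset (Fin k)} (X : Ctx m r k d G U F)

lemma Ds_inv (b : Fin k) (s : ZMod (2 * r + 1)) (h : s ∈ X.Ds b) : 2 * X.gs b - s ∈ X.Ds b := by
  simp only [Ctx.Ds, mem_insert, mem_singleton] at h ⊢
  rcases h with rfl | rfl | rfl | rfl | rfl | rfl
  · right; left; ring
  · left; ring
  · right; right; right; left; ring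
  · right; right; left; ring
  · right; right; right; right; right; ring
  · right; right; right; right; left; ring

lemma Fs_inv (b : Fin k) (s : ZMod (2 * r + 1)) (h : s ∈ X.Fs b) : 2 * X.gs b - s ∈ X.Fs b := by
  simp only [Ctx.Fs, mem_filter, mem_univ, true_and] at h ⊢
  rcases h with h | h | ⟨h1, h2⟩
  · right; left
    have : 2 * X.gs b - (2 * X.gs b - s) = s := by ring
    rw [this]
    exact h
  · left
    exact h
  · right; right
    refine ⟨h1, ?_⟩
    rw [h2]
    ring

lemma Fs_inv' (b : Fin k) (s : ZMod (2 * r + 1)) (h : 2 * X.gs b - s ∈ X.Fs b) : s ∈ X.Fs b := by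
  have := Fs_inv X b _ h
  have e : 2 * X.gs b - (2 * X.gs b - s) = s := by ring
  rwa [e] at this

lemma Fs_card (b : Fin k) : (X.Fs b).card ≤ 3 := by
  have h1 : (univ.filter (fun s => b ∈ X.Pal s)).card ≤ 1 := by
    rw [card_le_one]
    intro s hs s' hs'
    rw [mem_filter] at hs hs'
    by_contra hne
    exact disjoint_left.1 (X.Pald s s' hne) hs.2 hs'.2
  have h2 : (univ.filter (fun s => b ∈ X.Pal (2 * X.gs b - s))).card ≤ 1 := by
    rw [card_le_one]
    intro s hs s' hs'
    rw [mem_filter] at hs hs'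
    by_contra hne
    refine disjoint_left.1 (X.Pald (2 * X.gs b - s) (2 * X.gs b - s') ?_) hs.2 hs'.2
    intro h
    exact hne (sub_right_injective h)
  have h3 : (univ.filter (fun s => X.gi b = X.gj b ∧ s = X.gs b)).card ≤ 1 := by
    rw [card_le_one]
    intro s hs s' hs'
    rw [mem_filter] at hs hs'
    rw [hs.2.2, hs'.2.2]
  have h4 : X.Fs b ⊆ univ.filter (fun s => b ∈ X.Pal s) ∪
      (univ.filter (fun s => b ∈ X.Pal (2 * X.gs b - s)) ∪
        univ.filter (fun s => X.gi b = X.gj b ∧ s = X.gs b)) := by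
    intro s hs
    simp only [Ctx.Fs, mem_filter, mem_univ, true_and, mem_union] at hs ⊢
    exact hs
  have h5 := card_le_card h4
  have h6 := card_union_le (univ.filter (fun s => b ∈ X.Pal s))
    (univ.filter (fun s => b ∈ X.Pal (2 * X.gs b - s)) ∪
        univ.filter (fun s => X.gi b = X.gj b ∧ s = X.gs b))
  have h7 := card_union_le (univ.filter (fun s => b ∈ X.Pal (2 * X.gs b - s)))
        (univ.filter (fun s => X.gi b = X.gj b ∧ s = X.gs b))
  omega

lemma Ds_card (b : Fin k) : (X.Ds b).card = 6 := by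
  have hr := num_r X
  have h : X.Ds b = ({1, -1, 2, -2, 3, -3} : Finset ℤ).image (fun z : ℤ => X.gs b + (z : ZMod (2 * r + 1))) := by
    ext s
    simp only [Ctx.Ds, mem_insert, mem_singleton, mem_image, exists_eq_or_imp, exists_eq_left]
    push_cast
    simp only [← sub_eq_add_neg, eq_comm]
  rw [h, card_image_of_injOn]
  · rfl
  · intro z hz z' hz' hzz
    have h1 : ((z : ℤ) : ZMod (2 * r + 1)) = (z' : ℤ) := add_left_cancel hzz
    rw [ZMod.intCast_eq_intCast_iff_dvd_sub] at h1
    rw [mem_coe] at hz hz'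
    simp only [mem_insert, mem_singleton] at hz hz'
    by_contra hne
    have h2 : (((2 * r + 1 : ℕ) : ℤ)) ≤ |z' - z| := Int.le_of_dvd (abs_pos.2 (sub_ne_zero.2 (Ne.symm hne)))
      ((dvd_abs _ _).2 h1)
    have h3 : |z' - z| ≤ 6 := by
      rcases hz with rfl | rfl | rfl | rfl | rfl | rfl <;>
        rcases hz' with rfl | rfl | rfl | rfl | rfl | rfl <;> decide
    push_cast at h2
    omega

/-- the idle cell on the side `s` -/
def ic (b : Fin k) (s : Bool) : ZMod (2 * m + 1) := if s = true then X.gi b else X.gj b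

lemma idA_iff (b : Fin k) (a : Atom m r) : X.idA b a ↔ ic X b a.1 = a.2.1 := by
  unfold Ctx.idA ic
  cases h : a.1 <;> simp

lemma idl_iff (b : Fin k) (v : V) : X.idl b v ↔ v ∉ U ∧ ic X b (X.side v) = X.cell v := by
  unfold Ctx.idl
  rw [idA_iff]
  rfl

lemma mem_cls' (P : Finset (Atom m r)) (v : V) : v ∈ cls U X.at' P ↔ v ∉ U ∧ X.at' v ∈ P := by
  simp [cls]

/-- the idle and the fully uncovered atoms -/
noncomputable def KA (b : Fin k) (s : Bool) : Finset (Atom m r) :=
  univ.filter (fun a => a.1 = s ∧ (X.idA b a ∨ a.2.2 ∈ X.Fs b))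

lemma KA_card (b : Fin k) : (KA X b true).card = (KA X b false).card := by
  refine Finset.card_bij (fun a _ => ((false, a.2.1 + (X.gj b - X.gi b), a.2.2) : Atom m r))
    ?_ ?_ ?_
  · rintro ⟨s, c, t⟩ h
    simp only [KA, mem_filter, mem_univ, true_and, idA_iff, ic] at h ⊢
    rcases h with ⟨rfl, h⟩
    rcases h with h | h
    · left
      simp only [if_true] at h
      simp only [Bool.false_eq_true, if_false]
      rw [← h]
      ring
    · exact Or.inr h
  · rintro ⟨s, c, t⟩ h ⟨s', c', t'⟩ h' e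
    simp only [KA, mem_filter, mem_univ, true_and] at h h'
    simp only [Prod.mk.injEq, true_and] at e
    obtain ⟨e1, e2⟩ := e
    rw [h.1, h'.1, add_right_cancel e1, e2]
  · rintro ⟨s, c, t⟩ h
    simp only [KA, mem_filter, mem_univ, true_and, idA_iff, ic] at h
    refine ⟨(true, c - (X.gj b - X.gi b), t), ?_, ?_⟩
    · simp only [KA, mem_filter, mem_univ, true_and, idA_iff, ic, if_true]
      rcases h with ⟨rfl, h⟩
      rcases h with h | h
      · left
        simp only [Bool.false_eq_true, if_false] at h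
        rw [← h]
        ring
      · exact Or.inr h
    · rcases h with ⟨rfl, h⟩
      simp

lemma KA_le (b : Fin k) (s : Bool) :
    (KA X b s).card ≤ (2 * r + 1) + 3 * (2 * m + 1) := by
  have h1 : KA X b s ⊆
      ((univ : Finset (ZMod (2 * r + 1))).image (fun t => ((s, ic X b s, t) : Atom m r))) ∪
      ((univ : Finset (ZMod (2 * m + 1))) ×ˢ X.Fs b).image (fun p => ((s, p.1, p.2) : Atom m r)) := by
    rintro ⟨s', c, t⟩ h
    simp only [KA, mem_filter, mem_univ, true_and, idA_iff] at h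
    obtain ⟨rfl, h | h⟩ := h
    · apply mem_union_left
      rw [mem_image]
      exact ⟨t, mem_univ _, by rw [h]⟩
    · apply mem_union_right
      rw [mem_image]
      exact ⟨(c, t), mem_product.2 ⟨mem_univ _, h⟩, rfl⟩
  have h2 := card_le_card h1
  have h3 := card_union_le ((univ : Finset (ZMod (2 * r + 1))).image
      (fun t => ((s, ic X b s, t) : Atom m r)))
    (((univ : Finset (ZMod (2 * m + 1))) ×ˢ X.Fs b).image (fun p => ((s, p.1, p.2) : Atom m r)))
  have h4 : ((univ : Finset (ZMod (2 * r + 1))).image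
      (fun t => ((s, ic X b s, t) : Atom m r))).card ≤ 2 * r + 1 := by
    refine le_trans card_image_le ?_
    rw [card_univ, ZMod.card]
  have h5 : (((univ : Finset (ZMod (2 * m + 1))) ×ˢ X.Fs b).image
      (fun p => ((s, p.1, p.2) : Atom m r))).card ≤ 3 * (2 * m + 1) := by
    refine le_trans card_image_le ?_
    rw [card_product, card_univ, ZMod.card]
    have := Fs_card X b
    nlinarith
  omega

/-- a union of atoms -/
lemma cls_biUnion (P : Finset (Atom m r)) :
    cls U X.at' P = P.biUnion (fun a => cls U X.at' {a}) := by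
  ext v
  simp only [mem_cls', mem_biUnion, mem_singleton]
  constructor
  · rintro ⟨h1, h2⟩
    exact ⟨_, h2, h1, rfl⟩
  · rintro ⟨a, ha, h1, h2⟩
    exact ⟨h1, h2 ▸ ha⟩

lemma cls_disj (P : Finset (Atom m r)) : ∀ a ∈ P, ∀ a' ∈ P, a ≠ a' →
    Disjoint (cls U X.at' {a}) (cls U X.at' {a'}) := by
  intro a _ a' _ hne
  rw [disjoint_left]
  intro v hv hv'
  rw [mem_cls', mem_singleton] at hv hv'
  exact hne (hv.2.symm.trans hv'.2)

lemma cls_card_lo (P : Finset (Atom m r)) : P.card * X.N ≤ (cls U X.at' P).card := by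
  rw [cls_biUnion, card_biUnion (cls_disj X P)]
  rw [← smul_eq_mul]
  exact Finset.card_nsmul_le_sum _ _ _ (fun a _ => (X.atN a).1)

lemma cls_card_hi (P : Finset (Atom m r)) : (cls U X.at' P).card ≤ P.card * (X.N + 1) := by
  rw [cls_biUnion, card_biUnion (cls_disj X P)]
  rw [← smul_eq_mul]
  exact Finset.sum_le_card_nsmul _ _ _ (fun a _ => (X.atN a).2)

variable (P : Col X X.Fs 3)

/-- the uncovered vertices on one side -/
noncomputable def AA (b : Fin k) (s : Bool) : Finset V :=
  univ.filter (fun v => X.side v = s ∧ ¬ (v ∉ U ∧ X.c v = b) ∧ b ∉ F v ∧ ∀ w, ¬ P.E b v w)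

lemma AA_hi (b : Fin k) (hb : b ∈ X.Ga) (s : Bool) :
    (AA X P b s).card ≤ U.card + (KA X b s).card * (X.N + 1) + (2 * m + 1) * (2 * r + 1) := by
  have h1 : AA X P b s ⊆ U ∪ cls U X.at' (KA X b s) ∪
      ((univ.filter (fun a : Atom m r => a.1 = s ∧ ¬ (X.idA b a ∨ a.2.2 ∈ X.Fs b))).biUnion
        (fun a => (cls U X.at' {a}).filter (fun v => ∀ w, ¬ P.E b v w))) := by
    intro v hv
    simp only [AA, mem_filter, mem_univ, true_and] at hv
    by_cases hU : v ∈ U
    · exact mem_union_left _ (mem_union_left _ hU)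
    by_cases hK : X.idA b (X.at' v) ∨ (X.at' v).2.2 ∈ X.Fs b
    · apply mem_union_left
      apply mem_union_right
      rw [mem_cls']
      refine ⟨hU, ?_⟩
      simp only [KA, mem_filter, mem_univ, true_and]
      exact ⟨hv.1, hK⟩
    · apply mem_union_right
      rw [mem_biUnion]
      refine ⟨X.at' v, ?_, ?_⟩
      · simp only [mem_filter, mem_univ, true_and]
        exact ⟨hv.1, hK⟩
      · rw [mem_filter, mem_cls', mem_singleton]
        exact ⟨⟨hU, rfl⟩, hv.2.2.2⟩
  have h2 := card_le_card h1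
  have h3 := card_union_le (U ∪ cls U X.at' (KA X b s))
    ((univ.filter (fun a : Atom m r => a.1 = s ∧ ¬ (X.idA b a ∨ a.2.2 ∈ X.Fs b))).biUnion
        (fun a => (cls U X.at' {a}).filter (fun v => ∀ w, ¬ P.E b v w)))
  have h4 := card_union_le U (cls U X.at' (KA X b s))
  have h5 := cls_card_hi X (KA X b s)
  have h6 : ((univ.filter (fun a : Atom m r => a.1 = s ∧ ¬ (X.idA b a ∨ a.2.2 ∈ X.Fs b))).biUnion
        (fun a => (cls U X.at' {a}).filter (fun v => ∀ w, ¬ P.E b v w))).card ≤
      (2 * m + 1) * (2 * r + 1) := by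
    have h7 : (univ.filter (fun a : Atom m r => a.1 = s ∧ ¬ (X.idA b a ∨ a.2.2 ∈ X.Fs b))).card ≤
        (2 * m + 1) * (2 * r + 1) := by
      have h8 : univ.filter (fun a : Atom m r => a.1 = s ∧ ¬ (X.idA b a ∨ a.2.2 ∈ X.Fs b)) ⊆
          (univ : Finset (ZMod (2 * m + 1) × ZMod (2 * r + 1))).image (fun p => ((s, p) : Atom m r)) := by
        rintro ⟨s', p⟩ h
        simp only [mem_filter, mem_univ, true_and] at h
        rw [mem_image]
        exact ⟨p, mem_univ _, by rw [h.1]⟩
      refine le_trans (card_le_card h8) (le_trans card_image_le ?_)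
      rw [card_univ, Fintype.card_prod, ZMod.card, ZMod.card]
    refine le_trans ?_ h7
    have h9 := Finset.card_biUnion_le_card_mul
      (univ.filter (fun a : Atom m r => a.1 = s ∧ ¬ (X.idA b a ∨ a.2.2 ∈ X.Fs b)))
      (fun a => (cls U X.at' {a}).filter (fun v => ∀ w, ¬ P.E b v w)) 1 (by
        intro a ha
        simp only [mem_filter, mem_univ, true_and, not_or] at ha
        exact P.part b hb a ha.2.1 ha.2.2)
    omega
  omega

lemma AA_lo (b : Fin k) (hb : b ∈ X.Ga)
    (full : ∀ b ∈ X.Ga, ∀ v w, v ∉ U → ¬ X.idl b v → X.sub v ∈ X.Fs b → ¬ P.E b v w) (s : Bool) :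
    (KA X b s).card * X.N ≤ (AA X P b s).card + (2 * m + 1) * (X.N + 1) + U.card := by
  have h1 : cls U X.at' (KA X b s) ⊆ AA X P b s ∪
      univ.filter (fun v => v ∉ U ∧ X.side v = s ∧ X.c v = b) ∪
      univ.filter (fun v => v ∉ U ∧ ∃ w ∈ U, P.E b v w) := by
    intro v hv
    rw [mem_cls'] at hv
    obtain ⟨hU, hK⟩ := hv
    simp only [KA, mem_filter, mem_univ, true_and] at hK
    obtain ⟨hs, hK⟩ := hK
    have hs' : X.side v = s := hs
    by_cases hc : X.c v = b
    · apply mem_union_left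
      apply mem_union_right
      simp only [mem_filter, mem_univ, true_and]
      exact ⟨hU, hs', hc⟩
    by_cases hE : ∃ w, P.E b v w
    · obtain ⟨w, hw⟩ := hE
      apply mem_union_right
      simp only [mem_filter, mem_univ, true_and]
      refine ⟨hU, w, ?_, hw⟩
      by_cases hi : X.idl b v
      · exact P.Ei b v w hi hw
      · rcases hK with hK | hK
        · exact absurd ⟨hU, hK⟩ hi
        · exact absurd hw (full b hb v w hU hi hK)
    · apply mem_union_left
      apply mem_union_left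
      simp only [AA, mem_filter, mem_univ, true_and]
      refine ⟨hs', fun h => hc h.2, ?_, ?_⟩
      · rw [X.F0 v hU]
        simp
      · intro w hw
        exact hE ⟨w, hw⟩
  have h2 := card_le_card h1
  have h3 := card_union_le (AA X P b s ∪
      univ.filter (fun v => v ∉ U ∧ X.side v = s ∧ X.c v = b))
      (univ.filter (fun v => v ∉ U ∧ ∃ w ∈ U, P.E b v w))
  have h4 := card_union_le (AA X P b s)
      (univ.filter (fun v => v ∉ U ∧ X.side v = s ∧ X.c v = b))
  have h5 := cls_card_lo X (KA X b s)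
  have h6 : (univ.filter (fun v => v ∉ U ∧ ∃ w ∈ U, P.E b v w)).card ≤ U.card := by
    have hch : ∀ v ∈ univ.filter (fun v => v ∉ U ∧ ∃ w ∈ U, P.E b v w), ∃ w ∈ U, P.E b v w := by
      intro v hv
      simp only [mem_filter, mem_univ, true_and] at hv
      exact hv.2
    rcases isEmpty_or_nonempty V with hV | hV
    · have : univ.filter (fun v => v ∉ U ∧ ∃ w ∈ U, P.E b v w) = ∅ := by
        rw [eq_empty_iff_forall_notMem]
        intro v
        exact (hV.false v).elim
      rw [this]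
      simp
    choose! f hf1 hf2 using hch
    apply Finset.card_le_card_of_injOn f
    · intro v hv
      exact hf1 v hv
    · intro v hv v' hv' h
      have e1 := P.sym _ _ _ (hf2 v hv)
      have e2 := P.sym _ _ _ (hf2 v' hv')
      rw [h] at e1
      exact P.inj _ _ _ _ e1 e2
  have h7 : (univ.filter (fun v => v ∉ U ∧ X.side v = s ∧ X.c v = b)).card ≤
      (2 * m + 1) * (X.N + 1) := by
    rcases (univ.filter (fun v => v ∉ U ∧ X.side v = s ∧ X.c v = b)).eq_empty_or_nonempty with
      h8 | ⟨v0, h8⟩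
    · rw [h8]
      simp
    · simp only [mem_filter, mem_univ, true_and] at h8
      have h9 : univ.filter (fun v => v ∉ U ∧ X.side v = s ∧ X.c v = b) ⊆
          cls U X.at' ((univ : Finset (ZMod (2 * m + 1))).image
            (fun c => ((s, c, X.sub v0) : Atom m r))) := by
        intro v hv
        simp only [mem_filter, mem_univ, true_and] at hv
        rw [mem_cls']
        refine ⟨hv.1, ?_⟩
        rw [mem_image]
        refine ⟨X.cell v, mem_univ _, ?_⟩
        have h10 : X.sub v = X.sub v0 := by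
          by_contra hne
          have e1 := X.cP v hv.1
          have e2 := X.cP v0 h8.1
          rw [hv.2.2] at e1
          rw [h8.2.2] at e2
          exact disjoint_left.1 (X.Pald _ _ hne) e1 e2
        rw [← h10, ← hv.2.1]
        rfl
      refine le_trans (card_le_card h9) (le_trans (cls_card_hi X _) ?_)
      apply Nat.mul_le_mul_right
      refine le_trans card_image_le ?_
      rw [card_univ, ZMod.card]
  omega

/-- the vertices whose edge of colour `b` may be dropped -/
noncomputable def TT (b : Fin k) (s : Bool) : Finset V :=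
  univ.filter (fun v => v ∉ U ∧ X.side v = s ∧ ¬ X.idl b v ∧ X.sub v ∈ X.Ds b ∧ X.sub v ∉ X.Fs b ∧
    ∃ w, P.E b v w)

lemma TT_card (b : Fin k) (hb : b ∈ X.Ga) (s : Bool) :
    3 * (2 * m) * (X.N - 1) ≤ (TT X P b s).card := by
  -- the good atoms
  have hDF : 3 ≤ (X.Ds b \ X.Fs b).card := by
    have h1 := Ds_card X b
    have h2 := Fs_card X b
    have h3 := le_card_sdiff (X.Fs b) (X.Ds b)
    omega
  set Q : Finset (Atom m r) := ((univ.erase (ic X b s)) ×ˢ (X.Ds b \ X.Fs b)).image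
    (fun p => ((s, p.1, p.2) : Atom m r)) with hQ
  have hQc : 3 * (2 * m) ≤ Q.card := by
    rw [hQ, card_image_of_injective]
    · rw [card_product, card_erase_of_mem (mem_univ _), card_univ, ZMod.card]
      have : 2 * m + 1 - 1 = 2 * m := by omega
      rw [this]
      nlinarith
    · rintro ⟨a1, a2⟩ ⟨b1, b2⟩ h
      simp only [Prod.mk.injEq, true_and] at h
      rw [h.1, h.2]
  have hQm : ∀ a ∈ Q, a.1 = s ∧ ¬ X.idA b a ∧ a.2.2 ∈ X.Ds b ∧ a.2.2 ∉ X.Fs b := by
    intro a ha
    rw [hQ, mem_image] at ha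
    obtain ⟨⟨c, t⟩, hct, rfl⟩ := ha
    rw [mem_product, mem_erase, mem_sdiff] at hct
    refine ⟨rfl, ?_, hct.2.1, hct.2.2⟩
    rw [idA_iff]
    exact fun h => hct.1.1 h.symm
  have h1 : (Q.biUnion (fun a => (cls U X.at' {a}).filter (fun v => ∃ w, P.E b v w))) ⊆
      TT X P b s := by
    intro v hv
    rw [mem_biUnion] at hv
    obtain ⟨a, ha, hv⟩ := hv
    rw [mem_filter, mem_cls', mem_singleton] at hv
    obtain ⟨⟨hU, rfl⟩, hw⟩ := hv
    obtain ⟨q1, q2, q3, q4⟩ := hQm _ ha
    simp only [TT, mem_filter, mem_univ, true_and]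
    exact ⟨hU, q1, fun h => q2 h.2, q3, q4, hw⟩
  have h2 := card_le_card h1
  rw [card_biUnion] at h2
  · have h3 : Q.card * (X.N - 1) ≤
        ∑ a ∈ Q, ((cls U X.at' {a}).filter (fun v => ∃ w, P.E b v w)).card := by
      rw [← smul_eq_mul]
      refine Finset.card_nsmul_le_sum _ _ _ (fun a ha => ?_)
      obtain ⟨q1, q2, q3, q4⟩ := hQm _ ha
      have h4 := P.part b hb a q2 q4
      have h5 := (X.atN a).1
      have h6 := Finset.card_filter_add_card_filter_not (s := cls U X.at' {a})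
        (fun v => ∃ w, P.E b v w)
      have h7 : (cls U X.at' {a}).filter (fun v => ¬ ∃ w, P.E b v w) =
          (cls U X.at' {a}).filter (fun v => ∀ w, ¬ P.E b v w) := by
        apply filter_congr
        intro v _
        simp
      rw [h7] at h6
      have h8 : X.N ≤ (cls U X.at' {a}).card := h5
      omega
    calc 3 * (2 * m) * (X.N - 1) ≤ Q.card * (X.N - 1) := Nat.mul_le_mul_right _ hQc
      _ ≤ _ := h3
      _ ≤ _ := h2
  · intro a ha a' ha' hne
    exact Disjoint.mono (filter_subset _ _) (filter_subset _ _)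
      (cls_disj X Q a ha a' ha' hne)

/-- the properties of the other end of a droppable edge -/
lemma mate_props (b : Fin k) (s : Bool) (v w : V) (hv : v ∈ TT X P b s) (h : P.E b v w) :
    w ∈ TT X P b s ∧ w ≠ v := by
  simp only [TT, mem_filter, mem_univ, true_and] at hv ⊢
  obtain ⟨v1, v2, v3, v4, v5, v6⟩ := hv
  have hw := P.En b v w v1 v3 h
  have hs := P.sym _ _ _ h
  have hadj := (P.adj b v w h).1
  have hside : X.side v = X.side w := by
    have : (ins G X.side).Adj v w := hadj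
    simp only [ins] at this
    exact this.2
  have hrho := P.rho b v w v1 hw h
  refine ⟨⟨hw, hside ▸ v2, ?_, ?_, ?_, v, hs⟩, hadj.ne'⟩
  · intro hi
    exact v1 (P.Ei b w v hi hs)
  · rw [hrho]
    exact Ds_inv X b _ v4
  · rw [hrho]
    exact fun h' => v5 (Fs_inv' X b _ h')

/-- the dropped vertices -/
lemma drop (b : Fin k) (s : Bool) (t : ℕ) (ht : 2 * t ≤ (TT X P b s).card) :
    ∃ D ⊆ TT X P b s, D.card = 2 * t ∧ ∀ v ∈ D, ∀ w, P.E b v w → w ∈ D := by
  rcases isEmpty_or_nonempty V with hV | hV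
  · refine ⟨∅, empty_subset _, ?_, by simp⟩
    have : TT X P b s = ∅ := by
      rw [eq_empty_iff_forall_notMem]
      intro v
      exact (hV.false v).elim
    rw [this] at ht
    simp at ht
    simp [ht]
  have hch : ∀ v ∈ TT X P b s, ∃ w, P.E b v w := by
    intro v hv
    simp only [TT, mem_filter, mem_univ, true_and] at hv
    exact hv.2.2.2.2.2
  choose! f hf using hch
  obtain ⟨D, h1, h2, h3⟩ := closed_subset (TT X P b s) f
    (fun x hx => (mate_props X P b s x _ hx (hf x hx)).1)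
    (fun x hx => (mate_props X P b s x _ hx (hf x hx)).2)
    (fun x hx => by
      have e1 := hf x hx
      have e2 := hf _ (mate_props X P b s x _ hx e1).1
      exact P.inj _ _ _ _ e2 (P.sym _ _ _ e1)) t ht
  refine ⟨D, h1, h2, fun v hv w hw => ?_⟩
  have e1 := hf v (h1 hv)
  rw [P.inj _ _ _ _ hw e1]
  exact h3 v hv

lemma imbC_eq' {Bs : Fin k → Finset (ZMod (2 * r + 1))} {lam : ℝ} (P : Col X Bs lam) (b : Fin k) :
    imbC X P b = ((univ.filter (fun v => X.side v = true ∧ (¬ (v ∉ U ∧ X.c v = b) ∧ b ∉ F v ∧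
      ∀ w, ¬ P.E b v w))).card : ℤ) - ((univ.filter (fun v => X.side v = false ∧
      (¬ (v ∉ U ∧ X.c v = b) ∧ b ∉ F v ∧ ∀ w, ¬ P.E b v w))).card : ℤ) := by
  unfold imbC imb
  congr 3
  · ext v
    simp only [mem_inter, sd, mem_filter, mem_univ, true_and]
    exact and_comm
  · ext v
    simp only [mem_inter, sd, mem_filter, mem_univ, true_and]
    exact and_comm

lemma imbC_eq (b : Fin k) :
    imbC X P b = ((AA X P b true).card : ℤ) - ((AA X P b false).card : ℤ) :=
  imbC_eq' X P b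

lemma imbC_bound (b : Fin k) (hb : b ∈ X.Ga)
    (full : ∀ b ∈ X.Ga, ∀ v w, v ∉ U → ¬ X.idl b v → X.sub v ∈ X.Fs b → ¬ P.E b v w) (e : ℤ)
    (he : |e| ≤ 2) : |e - imbC X P b| ≤ ((3 * (2 * m) * (X.N - 1) : ℕ) : ℤ) := by
  have h1 := AA_hi X P b hb true
  have h2 := AA_hi X P b hb false
  have h3 := AA_lo X P b hb full true
  have h4 := AA_lo X P b hb full false
  have h5 := KA_card X b
  have h6 := KA_le X b false
  rw [h5] at h1 h3
  set K := (KA X b false).card with hK
  obtain ⟨n1, n2, _⟩ := num_N X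
  have hM := num_M X
  have hR := num_R X
  have hN1 : (1 : ℝ) ≤ X.N := by nlinarith
  have hN1' : 1 ≤ X.N := by exact_mod_cast hN1
  -- a real inequality
  have key : (2 : ℝ) + 2 * U.card + K + (2 * m + 1) * (2 * r + 1) + (2 * m + 1) * (X.N + 1) ≤
      3 * (2 * m) * (X.N - 1) := by
    have h7 : (K : ℝ) ≤ (2 * r + 1) + 3 * (2 * m + 1) := by exact_mod_cast h6
    set M1 : ℝ := 2 * (m : ℝ) + 1 with hM1
    set R1 : ℝ := 2 * (r : ℝ) + 1 with hR1
    have e1 : 2 * (m : ℝ) = M1 - 1 := by rw [hM1]; ring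
    rw [e1]
    have g1 : (1 : ℝ) ≤ M1 := by
      have : (1 : ℝ) ≤ 10 ^ 9 := by norm_num
      linarith
    have g2 : (1 : ℝ) ≤ R1 := by linarith
    have g3 : M1 ≤ M1 * R1 := by nlinarith
    have g4 : R1 ≤ M1 * R1 := by nlinarith
    have g5 : 1 ≤ M1 * R1 := by nlinarith
    have g6 : (10 : ℝ) ^ 9 * X.N ≤ M1 * X.N := by
      apply mul_le_mul_of_nonneg_right hM
      linarith
    nlinarith
  have key' : 2 + 2 * U.card + K + (2 * m + 1) * (2 * r + 1) + (2 * m + 1) * (X.N + 1) ≤
      3 * (2 * m) * (X.N - 1) := by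
    have h8 : ((2 + 2 * U.card + K + (2 * m + 1) * (2 * r + 1) + (2 * m + 1) * (X.N + 1) : ℕ) : ℝ) ≤
      ((3 * (2 * m) * (X.N - 1) : ℕ) : ℝ) := by
      push_cast [Nat.cast_sub hN1']
      exact key
    exact_mod_cast h8
  rw [imbC_eq]
  have h9 := abs_le.1 he
  have h10 : ((K * (X.N + 1) : ℕ) : ℤ) = ((K * X.N : ℕ) : ℤ) + K := by push_cast; ring
  have h11 : K * (X.N + 1) = K * X.N + K := by ring
  rw [h11] at h1 h2
  generalize hq1 : K * X.N = q1 at h1 h2 h3 h4
  generalize hq2 : (2 * m + 1) * (2 * r + 1) = q2 at h1 h2 h3 h4 key'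
  generalize hq3 : (2 * m + 1) * (X.N + 1) = q3 at h1 h2 h3 h4 key'
  generalize hq4 : 3 * (2 * m) * (X.N - 1) = q4 at key' ⊢
  generalize hq5 : (AA X P b true).card = q5 at h1 h3 ⊢
  generalize hq6 : (AA X P b false).card = q6 at h2 h4 ⊢
  generalize hq7 : U.card = q7 at h1 h2 h3 h4 key'
  rw [abs_le]
  constructor <;> omega

lemma Dsub_card (v : V) : ((X.Ga.filter (fun b => X.sub v ∈ X.Ds b)).card : ℝ) ≤
    5 * d / (2 * r + 1) := by
  have h1 : X.Ga.filter (fun b => X.sub v ∈ X.Ds b) ⊆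
      ({1, -1, 2, -2, 3, -3} : Finset (ZMod (2 * r + 1))).biUnion
        (fun z => X.Ga.filter (fun b => X.gs b = X.sub v - z)) := by
    intro b hb
    rw [mem_filter] at hb
    obtain ⟨hb, h⟩ := hb
    rw [mem_biUnion]
    simp only [Ctx.Ds, mem_insert, mem_singleton] at h
    have key : ∀ z : ZMod (2 * r + 1), X.sub v = X.gs b + z → X.gs b = X.sub v - z := by
      intro z hz
      rw [hz]
      ring
    rcases h with h | h | h | h | h | h
    · exact ⟨1, by simp, mem_filter.2 ⟨hb, key 1 h⟩⟩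
    · exact ⟨-1, by simp, mem_filter.2 ⟨hb, key (-1) (by rw [h]; ring)⟩⟩
    · exact ⟨2, by simp, mem_filter.2 ⟨hb, key 2 h⟩⟩
    · exact ⟨-2, by simp, mem_filter.2 ⟨hb, key (-2) (by rw [h]; ring)⟩⟩
    · exact ⟨3, by simp, mem_filter.2 ⟨hb, key 3 h⟩⟩
    · exact ⟨-3, by simp, mem_filter.2 ⟨hb, key (-3) (by rw [h]; ring)⟩⟩
  have h2 := card_le_card h1
  have h3 := Finset.card_biUnion_le_card_mul ({1, -1, 2, -2, 3, -3} : Finset (ZMod (2 * r + 1)))
    (fun z => X.Ga.filter (fun b => X.gs b = X.sub v - z)) ((2 * m + 1) ^ 2 * X.u)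
    (fun z _ => card_gs X _)
  have h4 : ({1, -1, 2, -2, 3, -3} : Finset (ZMod (2 * r + 1))).card ≤ 6 := by
    exact Finset.card_le_six
  have h5 : (X.Ga.filter (fun b => X.sub v ∈ X.Ds b)).card ≤ 6 * ((2 * m + 1) ^ 2 * X.u) :=
    h2.trans (h3.trans (Nat.mul_le_mul_right _ h4))
  have h6 : ((X.Ga.filter (fun b => X.sub v ∈ X.Ds b)).card : ℝ) ≤
      6 * ((2 * m + 1) ^ 2 * X.u) := by exact_mod_cast h5
  have h7 := num_u X
  have hR : (0 : ℝ) < 2 * (r : ℝ) + 1 := by positivity
  refine h6.trans ?_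
  rw [le_div_iff₀ hR]
  have hd0 : (0 : ℝ) ≤ d := Nat.cast_nonneg d
  nlinarith

/-- dropping the edges at a closed family of vertices -/
lemma dropped (Dr : Fin k → Finset V) (sg : Fin k → Bool)
    (hT : ∀ b, Dr b ⊆ TT X P b (sg b)) (hcl : ∀ b, ∀ v ∈ Dr b, ∀ w, P.E b v w → w ∈ Dr b) :
    ∃ P' : Col X (fun b => X.Fs b ∪ X.Ds b) 8, ∀ b v w, P'.E b v w ↔ P.E b v w ∧ v ∉ Dr b := by
  have hcl' : ∀ b v w, P.E b v w → (v ∉ Dr b ↔ w ∉ Dr b) := fun b v w h =>
    ⟨fun h1 h2 => h1 (hcl b w h2 v (P.sym _ _ _ h)), fun h1 h2 => h1 (hcl b v h2 w h)⟩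
  have hDU : ∀ b, ∀ v ∈ Dr b, v ∉ U ∧ ¬ X.idl b v ∧ X.sub v ∈ X.Ds b := by
    intro b v hv
    have := hT b hv
    simp only [TT, mem_filter, mem_univ, true_and] at this
    exact ⟨this.1, this.2.2.1, this.2.2.2.1⟩
  obtain ⟨E', hE'⟩ : ∃ E' : Fin k → V → V → Prop, ∀ b v w, E' b v w ↔ P.E b v w ∧ v ∉ Dr b :=
    ⟨fun b v w => P.E b v w ∧ v ∉ Dr b, fun b v w => Iff.rfl⟩
  refine ⟨{ E := E'
            sym := fun b v w h => ?_
            adj := fun b v w h => P.adj b v w ((hE' _ _ _).1 h).1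
            inj := fun b v w w' h h' => P.inj b v w w' ((hE' _ _ _).1 h).1 ((hE' _ _ _).1 h').1
            uniq := fun b b' v w h h' => P.uniq b b' v w ((hE' _ _ _).1 h).1 ((hE' _ _ _).1 h').1
            EF := fun b v w h => P.EF b v w ((hE' _ _ _).1 h).1
            Ec := fun b v w hv h => P.Ec b v w hv ((hE' _ _ _).1 h).1
            EU := fun v hv w h => ?_
            Ei := fun b v w hi h => P.Ei b v w hi ((hE' _ _ _).1 h).1
            En := fun b v w hv hi h => P.En b v w hv hi ((hE' _ _ _).1 h).1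
            rho := fun b v w hv hw h => P.rho b v w hv hw ((hE' _ _ _).1 h).1
            iloc := fun b hb y => ?_
            ucnt := fun u hu j => ?_
            part := fun b hb a ha hs => ?_
            hcnt := fun v hv => ?_ }, hE'⟩
  · obtain ⟨h1, h2⟩ := (hE' _ _ _).1 h
    exact (hE' _ _ _).2 ⟨P.sym _ _ _ h1, (hcl' b v w h1).1 h2⟩
  · obtain ⟨b, hb⟩ := P.EU v hv w h
    exact ⟨b, (hE' _ _ _).2 ⟨hb, fun h' => (hDU b v h').1 hv⟩⟩
  · refine le_trans ?_ (P.iloc b hb y)
    exact_mod_cast card_le_card (fun v hv => by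
      rw [mem_filter] at hv ⊢
      obtain ⟨h1, h2, w, h3⟩ := hv
      exact ⟨h1, h2, w, ((hE' _ _ _).1 h3).1⟩)
  · refine le_trans ?_ (P.ucnt u hu j)
    exact_mod_cast card_le_card (fun b hb => by
      rw [mem_filter] at hb ⊢
      obtain ⟨h1, h2, h3, h4⟩ := hb
      exact ⟨h1, h2, h3, fun w hw => h4 w ((hE' _ _ _).2 ⟨hw, fun h' => (hDU b u h').1 hu⟩)⟩)
  · have hs' : a.2.2 ∉ X.Fs b ∧ a.2.2 ∉ X.Ds b := by
      rw [← not_or, ← mem_union]
      exact hs
    refine le_trans (card_le_card ?_) (P.part b hb a ha hs'.1)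
    intro v hv
    rw [mem_filter] at hv ⊢
    refine ⟨hv.1, fun w hw => hv.2 w ((hE' _ _ _).2 ⟨hw, fun h' => ?_⟩)⟩
    have h1 := hv.1
    rw [mem_cls', mem_singleton] at h1
    apply hs'.2
    rw [← h1.2]
    exact (hDU b v h').2.2
  · have h1 := P.hcnt v hv
    have h2 := Dsub_card X v
    have h3 : X.Ga.filter (fun b => ¬ X.idl b v ∧ ∀ w, ¬ E' b v w) ⊆
        X.Ga.filter (fun b => ¬ X.idl b v ∧ ∀ w, ¬ P.E b v w) ∪
          X.Ga.filter (fun b => X.sub v ∈ X.Ds b) := by
      intro b hb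
      rw [mem_filter] at hb
      rw [mem_union, mem_filter, mem_filter]
      by_cases hD : v ∈ Dr b
      · exact Or.inr ⟨hb.1, (hDU b v hD).2.2⟩
      · exact Or.inl ⟨hb.1, hb.2.1, fun w hw => hb.2.2 w ((hE' _ _ _).2 ⟨hw, hD⟩)⟩
    have h4 := (card_le_card h3).trans (card_union_le _ _)
    have h5 : ((X.Ga.filter (fun b => ¬ X.idl b v ∧ ∀ w, ¬ E' b v w)).card : ℝ) ≤
        ((X.Ga.filter (fun b => ¬ X.idl b v ∧ ∀ w, ¬ P.E b v w)).card : ℝ) +
          ((X.Ga.filter (fun b => X.sub v ∈ X.Ds b)).card : ℝ) := by exact_mod_cast h4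
    have h6 : (3 : ℝ) * d / (2 * r + 1) + 5 * d / (2 * r + 1) = 8 * d / (2 * r + 1) := by ring
    rw [← h6]
    exact h5.trans (add_le_add h1 h2)

end CUTAux

open CUTAux in
theorem stmt_CUT : Stmt_CUT.{u} := by
  intro m r V _ k d G U F X P e full he
  -- the dropped vertices
  have hex : ∀ b, ∃ D : Finset V, D ⊆ TT X P b (decide (imbC X P b ≤ e b)) ∧
      (b ∈ X.Ga → (D.card : ℤ) = |e b - imbC X P b|) ∧ ∀ v ∈ D, ∀ w, P.E b v w → w ∈ D := by
    intro b
    by_cases hb : b ∈ X.Ga
    · obtain ⟨e1, e2⟩ := he b hb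
      have h1 := imbC_bound X P b hb full (e b) e1
      have h2 := TT_card X P b hb (decide (imbC X P b ≤ e b))
      have h3 : ∃ t : ℕ, |e b - imbC X P b| = 2 * t := by
        refine ⟨(|e b - imbC X P b| / 2).toNat, ?_⟩
        have h4 : 0 ≤ |e b - imbC X P b| := abs_nonneg _
        have h5 : |e b - imbC X P b| % 2 = 0 := by
          rcases abs_choice (e b - imbC X P b) with h | h <;> rw [h] <;> omega
        omega
      obtain ⟨t, ht⟩ := h3
      obtain ⟨D, d1, d2, d3⟩ := drop X P b (decide (imbC X P b ≤ e b)) t (by omega)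
      exact ⟨D, d1, fun _ => by rw [d2, ht]; push_cast; ring, d3⟩
    · exact ⟨∅, empty_subset _, fun h => absurd h hb, by simp⟩
  choose Dr hT hc hcl using hex
  obtain ⟨P', hP'⟩ := dropped X P Dr _ hT hcl
  refine ⟨P', fun b hb => ?_⟩
  -- the uncovered vertices
  have hDr : ∀ v ∈ Dr b, v ∉ U ∧ X.side v = decide (imbC X P b ≤ e b) ∧ ∃ w, P.E b v w := by
    intro v hv
    have := hT b hv
    simp only [TT, mem_filter, mem_univ, true_and] at this
    exact ⟨this.1, this.2.1, this.2.2.2.2.2⟩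
  have hside : ∀ s, ((univ.filter (fun v => X.side v = s ∧ (¬ (v ∉ U ∧ X.c v = b) ∧ b ∉ F v ∧
      ∀ w, ¬ P'.E b v w))).card : ℤ) = (AA X P b s).card +
        (if s = decide (imbC X P b ≤ e b) then ((Dr b).card : ℤ) else 0) := by
    intro s
    have h1 : univ.filter (fun v => X.side v = s ∧ (¬ (v ∉ U ∧ X.c v = b) ∧ b ∉ F v ∧
        ∀ w, ¬ P'.E b v w)) = AA X P b s ∪ (Dr b).filter (fun v => X.side v = s) := by
      ext v
      simp only [AA, mem_union, mem_filter, mem_univ, true_and, hP']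
      constructor
      · rintro ⟨h1, h2, h3, h4⟩
        by_cases hD : v ∈ Dr b
        · exact Or.inr ⟨hD, h1⟩
        · exact Or.inl ⟨h1, h2, h3, fun w hw => h4 w ⟨hw, hD⟩⟩
      · rintro (⟨h1, h2, h3, h4⟩ | ⟨h1, h2⟩)
        · exact ⟨h1, h2, h3, fun w hw => h4 w hw.1⟩
        · obtain ⟨q1, q2, w, q3⟩ := hDr v h1
          exact ⟨h2, fun h => P.Ec b v w q1 q3 h.2, by rw [X.F0 v q1]; simp,
            fun w' hw' => hw'.2 h1⟩
    have h2 : Disjoint (AA X P b s) ((Dr b).filter (fun v => X.side v = s)) := by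
      rw [disjoint_left]
      intro v hv hv'
      simp only [AA, mem_filter, mem_univ, true_and] at hv hv'
      obtain ⟨q1, q2, w, q3⟩ := hDr v hv'.1
      exact hv.2.2.2 w q3
    rw [h1, card_union_of_disjoint h2]
    push_cast
    congr 1
    by_cases hs : s = decide (imbC X P b ≤ e b)
    · rw [if_pos hs]
      congr 2
      apply filter_true_of_mem
      intro v hv
      rw [hs]
      exact (hDr v hv).2.1
    · rw [if_neg hs]
      have : (Dr b).filter (fun v => X.side v = s) = ∅ := by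
        apply filter_false_of_mem
        intro v hv h
        exact hs (h.symm.trans (hDr v hv).2.1)
      rw [this]
      simp
  rw [imbC_eq' X P' b, hside true, hside false]
  have h2 := imbC_eq X P b
  have h3 := hc b hb
  by_cases h4 : imbC X P b ≤ e b
  · rw [decide_eq_true h4]
    rw [if_pos rfl, if_neg (by simp)]
    rw [abs_of_nonneg (by omega)] at h3
    omega
  · rw [decide_eq_false h4]
    rw [if_neg (by simp), if_pos rfl]
    rw [abs_of_neg (by omega)] at h3
    omega

end Pool.Agent.Work.MP_db9399_exp.helper38
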