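import Pool.Agent.Work.MP_db9399_exp.Interface
import Pool.Agent.Work.MP_db9399_qr.GF

/-! THEOREM EXP, block GF: the last bipartite part, by the old block GAL. -/

set_option autoImplicit false
set_option linter.unusedSectionVars false

namespace Pool.Agent.Work.MP_db9399_exp.helper38

universe u

open Finset Classical
open Pool.Agent.Work.MP_db9399_all (nb)
open Pool.Agent.Work.MP_db9399_qr (cov PEC ins sd PMat W0 imb ZQ Good)
open Pool.Agent.Work.MP_db9399_qr.GFAux
open _root_.MP_db9399_co

theorem stmt_GF : Stmt_GF.{u} := by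
  intro m r V _ k d G U F X I Mt
  rcases isEmpty_or_nonempty V with hV | hV
  · refine ⟨fun v => (hV.false v).elim, ?_⟩
    refine ⟨fun v => (hV.false v).elim, fun v => (hV.false v).elim, ⟨fun v => (hV.false v).elim,
      fun v => (hV.false v).elim⟩, fun v => (hV.false v).elim, fun v => (hV.false v).elim⟩
  set P : Finset (Fin k) := X.Ga ∪ X.Pe with hP
  set L : Finset (Fin k) := univ \ P with hL
  set E := CE G X.side with hE
  set F0 := E.filter (fun e => ∀ a, e ∉ Mt.M a) with hF0
  have hPk : P.card + L.card = k := by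
    have h := card_sdiff_add_card_eq_card (subset_univ P)
    rw [card_univ, Fintype.card_fin] at h
    rw [hL]
    omega
  have hME : ∀ a, Mt.M a ⊆ E := by
    intro a e he
    rw [hE, mem_CE]
    exact Mt.Me a e he
  -- inside colours belong to `P`
  have htP : ∀ v w, X.R.Adj v w → I.t v w ∈ P := by
    intro v w h
    rw [hP, mem_union]
    rcases I.tcol v w h with h1 | h1
    · exact Or.inl h1
    · exact Or.inr h1.1
  have hcP : ∀ v, v ∉ U → X.c v ∈ X.Ga ∨ X.c v ∉ P := by
    intro v hv
    have h := X.cP v hv
    by_cases hs : X.sub v ∈ X.GS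
    · exact Or.inl (X.PalG _ hs h)
    · exact Or.inr (disjoint_left.1 (X.PalL _ hs) h)
  set Fb : V → Finset (Fin k) := fun v => if v ∈ U then F v else {X.c v} with hFb
  have hFbU : ∀ v, v ∈ U → Fb v = F v := fun v hv => if_pos hv
  have hFbc : ∀ v, v ∉ U → Fb v = {X.c v} := fun v hv => if_neg hv
  -- the count
  have hdeg : ∀ w, (Lin.inc F0 w).card + 4 ≤ L.card := by
    intro w
    have h1 := cross_card G X.side w
    have h2 := cover_count E Mt.M w Mt.Md hME
    rw [← hE] at h1
    rw [← hF0] at h2
    set Cv := univ.filter (fun a => ∃ e ∈ Mt.M a, e.1 = w ∨ e.2 = w) with hCv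
    set A := P.filter (fun b => w ∈ W0 X.R U F X.c I.t b ∧ w ∉ Mt.Z (Sum.inl b)) with hA
    set B := (univ : Finset (Fin 4)).filter (fun j => w ∈ Wq X j ∧
      w ∉ Mt.Z (Sum.inr j)) with hB
    have h3 : A.card + B.card ≤ Cv.card := by
      rw [← card_disjSum]
      apply card_le_card
      intro a ha
      rw [hCv, mem_filter]
      refine ⟨mem_univ _, ?_⟩
      rw [mem_disjSum] at ha
      rcases ha with ⟨b, hb, rfl⟩ | ⟨j, hj, rfl⟩
      · rw [hA, mem_filter] at hb
        exact (Mt.Mc b hb.1 w).2 hb.2
      · rw [hB, mem_filter] at hj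
        exact (Mt.Mq j w).2 hj.2
    set z1 := (univ.filter (fun b : Fin k => w ∈ Mt.Z (Sum.inl b))) with hz1
    set z2 := (univ.filter (fun j : Fin 4 => w ∈ Mt.Z (Sum.inr j))) with hz2
    have hz : z1.card + z2.card ≤ 1 := by
      rw [← card_disjSum, card_le_one]
      intro a ha b hb
      by_contra hne
      have hm : ∀ a ∈ z1.disjSum z2, w ∈ Mt.Z a := by
        intro a ha
        rw [mem_disjSum] at ha
        rcases ha with ⟨b, hb, rfl⟩ | ⟨j, hj, rfl⟩
        · rw [hz1, mem_filter] at hb
          exact hb.2
        · rw [hz2, mem_filter] at hj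
          exact hj.2
      exact disjoint_left.1 (Mt.Zd a b hne) (hm a ha) (hm b hb)
    have hzU : w ∈ U → z1.card + z2.card = 0 := by
      intro hw
      have e1 : z1 = ∅ := by
        rw [hz1, filter_eq_empty_iff]
        intro b _ hb
        exact disjoint_left.1 (Mt.ZU _) hb hw
      have e2 : z2 = ∅ := by
        rw [hz2, filter_eq_empty_iff]
        intro b _ hb
        exact disjoint_left.1 (Mt.ZU _) hb hw
      rw [e1, e2]
      rfl
    have h4 : (P.filter (fun b => w ∈ W0 X.R U F X.c I.t b)).card ≤ A.card + z1.card := by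
      rw [← card_union_of_disjoint]
      · apply card_le_card
        intro b hb
        rw [mem_filter] at hb
        rw [mem_union, hA, hz1, mem_filter, mem_filter]
        by_cases h : w ∈ Mt.Z (Sum.inl b)
        · exact Or.inr ⟨mem_univ _, h⟩
        · exact Or.inl ⟨hb.1, hb.2, h⟩
      · rw [disjoint_left]
        intro b hb hb'
        rw [hA, mem_filter] at hb
        rw [hz1, mem_filter] at hb'
        exact hb.2.2 hb'.2
    have h5 : ((univ : Finset (Fin 4)).filter (fun j => w ∈ Wq X j)).card ≤
        B.card + z2.card := by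
      rw [← card_union_of_disjoint]
      · apply card_le_card
        intro b hb
        rw [mem_filter] at hb
        rw [mem_union, hB, hz2, mem_filter, mem_filter]
        by_cases h : w ∈ Mt.Z (Sum.inr b)
        · exact Or.inr ⟨mem_univ _, h⟩
        · exact Or.inl ⟨mem_univ _, hb.2, h⟩
      · rw [disjoint_left]
        intro b hb hb'
        rw [hB, mem_filter] at hb
        rw [hz2, mem_filter] at hb'
        exact hb.2.2 hb'.2
    have h6 : ∀ S : Finset (Fin k), (∀ b ∈ P, b ∉ S → ¬ (w ∉ U ∧ X.c w = b) ∧ b ∉ F w) →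
        P.card ≤ (P.filter (fun b => w ∈ W0 X.R U F X.c I.t b)).card + (P ∩ S).card +
          (nb X.R w).card := by
      intro S hS
      have h7 : P ⊆ (P.filter (fun b => w ∈ W0 X.R U F X.c I.t b)) ∪ (P ∩ S) ∪
          ((nb X.R w).image (I.t w)) := by
        intro b hb
        by_cases hbS : b ∈ S
        · exact mem_union_left _ (mem_union_right _ (mem_inter.2 ⟨hb, hbS⟩))
        by_cases hbc : w ∈ cov X.R I.t b
        · apply mem_union_right
          simp only [cov, mem_filter, mem_univ, true_and] at hbc
          obtain ⟨x, hx1, hx2⟩ := hbc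
          rw [mem_image]
          exact ⟨x, by simp [nb, hx1], hx2⟩
        · apply mem_union_left
          apply mem_union_left
          rw [mem_filter]
          refine ⟨hb, ?_⟩
          simp only [W0, mem_filter, mem_univ, true_and]
          exact ⟨(hS b hb hbS).1, (hS b hb hbS).2, hbc⟩
      calc P.card ≤ _ := card_le_card h7
        _ ≤ _ := card_union_le _ _
        _ ≤ _ := Nat.add_le_add (card_union_le _ _) card_image_le
    have hR : X.R = ins G X.side := rfl
    rw [← hR] at h1
    by_cases hw : w ∈ U
    · have h7 := h6 (F w) (fun b _ hb => ⟨fun h => h.1 hw, hb⟩)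
      have h8 := hzU hw
      have h9 : (P ∩ F w).card + (F w ∩ L).card = (F w).card := by
        rw [hL, inter_comm P, ← card_union_of_disjoint]
        · congr 1
          ext b
          simp only [mem_union, mem_inter, mem_sdiff, mem_univ, true_and]
          tauto
        · rw [disjoint_left]
          intro b hb hb'
          simp only [mem_inter, mem_sdiff, mem_univ, true_and] at hb hb'
          exact hb'.2 hb.2
      have h10 := X.F2 w hw
      have h11 := X.degU w hw
      have h12 := X.kd
      have h13 : 4 ≤ ((univ : Finset (Fin 4)).filter (fun j => w ∉ ZQ X.side F L j)).card +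
          (F w ∩ L).card := by
        have h14 := zq_count (X.side w) (F w ∩ L).card (by
          have := card_le_card (inter_subset_left : F w ∩ L ⊆ F w)
          omega)
        have h15 := card_filter_add_card_filter_not (s := (univ : Finset (Fin 4)))
          (fun j => w ∈ ZQ X.side F L j)
        have h16 : ((univ : Finset (Fin 4)).filter (fun j => w ∈ ZQ X.side F L j)).card ≤
            (F w ∩ L).card := by
          refine le_trans (le_of_eq ?_) h14
          congr 1
          ext j
          simp [ZQ]
        rw [card_univ, Fintype.card_fin] at h15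
        omega
      have h17 : ((univ : Finset (Fin 4)).filter (fun j => w ∉ ZQ X.side F L j)).card ≤
          ((univ : Finset (Fin 4)).filter (fun j => w ∈ Wq X j)).card := by
        apply card_le_card
        intro j hj
        rw [mem_filter] at hj ⊢
        refine ⟨mem_univ _, ?_⟩
        rw [Wq, mem_filter]
        exact ⟨mem_univ _, hj.2, fun _ => Or.inl hw⟩
      omega
    · have hFw := X.F0 w hw
      have hZQ : ∀ j, w ∉ ZQ X.side F L j := by
        intro j
        simp [ZQ, hFw]
      have h10 := X.deg w
      have h11 := X.kd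
      rcases hcP w hw with hcG | hcN
      swap
      · have h7 := h6 ∅ (fun b hb _ => ⟨fun h => hcN (by rw [h.2]; exact hb), by simp [hFw]⟩)
        have e1 : z1 = ∅ := by
          rw [hz1, filter_eq_empty_iff]
          intro b _ hb
          exact hcN (mem_union_left _ (Mt.ZG _ w hb))
        have e2 : z2 = ∅ := by
          rw [hz2, filter_eq_empty_iff]
          intro b _ hb
          exact hcN (mem_union_left _ (Mt.ZG _ w hb))
        have h9 : 2 ≤ ((univ : Finset (Fin 4)).filter (fun j => w ∈ Wq X j)).card := by
          have hsub : ({1, 3} : Finset (Fin 4)) ⊆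
              (univ : Finset (Fin 4)).filter (fun j => w ∈ Wq X j) := by
            intro j hj
            rw [mem_filter]
            refine ⟨mem_univ _, ?_⟩
            rw [Wq, mem_filter]
            refine ⟨mem_univ _, hZQ j, fun h => ?_⟩
            simp only [mem_insert, mem_singleton] at hj
            rcases hj with rfl | rfl <;> simp at h
          have := card_le_card hsub
          simpa using this
        rw [e1, card_empty] at h4
        rw [e2, card_empty] at h5
        rw [inter_empty, card_empty] at h7
        omega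
      have h7 := h6 {X.c w} (fun b _ hb => ⟨fun h => hb (mem_singleton.2 h.2.symm), by simp [hFw]⟩)
      have h8 : (P ∩ {X.c w}).card ≤ 1 := by
        refine le_trans (card_le_card inter_subset_right) ?_
        simp
      have h9 : 4 ≤ ((univ : Finset (Fin 4)).filter (fun j => w ∈ Wq X j)).card := by
        have : ((univ : Finset (Fin 4)).filter (fun j => w ∈ Wq X j)) = univ := by
          rw [filter_eq_self]
          intro j _
          rw [Wq, mem_filter]
          exact ⟨mem_univ _, hZQ j, fun _ => Or.inr hcG⟩
        rw [this, card_univ, Fintype.card_fin]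
      omega
  have hkk : 4 ≤ L.card := by
    obtain ⟨w⟩ := hV
    have := hdeg w
    omega
  have hWZ : ∀ j w, w ∈ Wq X j → w ∉ Lin.ZQ Fb L X.side j := by
    intro j w hw h
    rw [Wq, mem_filter] at hw
    simp only [Lin.ZQ, mem_filter, mem_univ, true_and] at h
    by_cases hU : w ∈ U
    · rw [hFbU w hU] at h
      apply hw.2.1
      simp only [ZQ, mem_filter, mem_univ, true_and]
      exact h
    · rw [hFbc w hU] at h
      have h1 := card_le_card (inter_subset_left : {X.c w} ∩ L ⊆ {X.c w})
      rw [card_singleton] at h1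
      have h2 : j.val % 2 = 0 := by omega
      have h3 : X.c w ∈ X.Ga := (hw.2.2 h2).resolve_left hU
      have h4 : {X.c w} ∩ L = ∅ := by
        rw [singleton_inter_of_notMem]
        rw [hL, mem_sdiff]
        intro h5
        exact h5.2 (mem_union_left _ h3)
      rw [h4, card_empty] at h
      omega
  -- GAL
  obtain ⟨col, hcol1, hcol2⟩ := Lin.stmt_GAL V k L.card X.side F0 (fun j => Mt.M (Sum.inr j)) L Fb
    hkk rfl
    (by
      intro w
      by_cases hw : w ∈ U
      · rw [hFbU w hw]
        have h1 := card_le_card (inter_subset_left : F w ∩ L ⊆ F w)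
        have := X.F2 w hw
        omega
      · rw [hFbc w hw]
        have h1 := card_le_card (inter_subset_left : {X.c w} ∩ L ⊆ {X.c w})
        rw [card_singleton] at h1
        omega)
    (by
      intro e he
      rw [hF0, mem_filter, hE, mem_CE] at he
      rw [he.1.1, he.1.2.1]
      simp)
    (by
      intro j e he
      have := Mt.Me _ e he
      rw [this.1, this.2.1]
      simp)
    hdeg (fun j => Mt.Mm _)
    (by
      intro j
      rw [disjoint_left]
      intro e he he'
      rw [hF0, mem_filter] at he
      exact he.2 _ he')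
    (by
      intro i j hij
      exact Mt.Md _ _ (fun h => hij (Sum.inr.inj h)))
    (by
      intro j e he
      have h1 := ((Mt.Mq j e.1).1 ⟨e, he, Or.inl rfl⟩).1
      have h2 := ((Mt.Mq j e.2).1 ⟨e, he, Or.inr rfl⟩).1
      exact ⟨hWZ j _ h1, hWZ j _ h2⟩)
  -- cross edges
  let cr : V × V → Fin k := fun e => if h : ∃ b, e ∈ Mt.M (Sum.inl b) then h.choose else col e
  have hcr1 : ∀ e, ∀ h : (∃ b, e ∈ Mt.M (Sum.inl b)), e ∈ Mt.M (Sum.inl (cr e)) := by
    intro e h
    have : cr e = h.choose := dif_pos h
    rw [this]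
    exact h.choose_spec
  have hMP : ∀ b e, e ∈ Mt.M (Sum.inl b) → b ∈ P := by
    intro b e he
    by_contra hb
    rw [Mt.M0 b hb] at he
    simp at he
  have hcr2 : ∀ e ∈ E, ¬ (∃ b, e ∈ Mt.M (Sum.inl b)) →
      cr e = col e ∧ (e ∈ F0 ∨ ∃ j, e ∈ Mt.M (Sum.inr j)) := by
    intro e he h
    refine ⟨dif_neg h, ?_⟩
    by_cases h1 : ∃ j, e ∈ Mt.M (Sum.inr j)
    · exact Or.inr h1
    · left
      rw [hF0, mem_filter]
      refine ⟨he, ?_⟩
      intro a ha
      rcases a with b | j
      · exact h ⟨b, ha⟩
      · exact h1 ⟨j, ha⟩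
  -- facts about the colours of cross edges
  have hcr3 : ∀ e ∈ E, ∀ v, (e.1 = v ∨ e.2 = v) → (cr e ∉ F v ∧ (v ∉ U → cr e ≠ X.c v) ∧
      ∀ w, X.R.Adj v w → I.t v w ≠ cr e) := by
    intro e he v hv
    by_cases h : ∃ b, e ∈ Mt.M (Sum.inl b)
    · have h1 := hcr1 e h
      have h2 := hMP _ e h1
      have h3 := ((Mt.Mc _ h2 v).1 ⟨e, h1, hv⟩).1
      simp only [W0, mem_filter, mem_univ, true_and] at h3
      refine ⟨h3.2.1, fun hvU heq => h3.1 ⟨hvU, heq.symm⟩, ?_⟩
      intro w hw heq
      apply h3.2.2
      simp only [cov, mem_filter, mem_univ, true_and]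
      exact ⟨w, hw, heq⟩
    · obtain ⟨h1, h2⟩ := hcr2 e he h
      have h3 := hcol1 e h2
      rw [← h1] at h3
      have hnP : cr e ∉ P := by
        have := h3.1
        rw [hL, mem_sdiff] at this
        exact this.2
      have h4 : cr e ∉ Fb v := by
        rcases hv with hv | hv
        · rw [← hv]; exact h3.2.1
        · rw [← hv]; exact h3.2.2
      refine ⟨?_, ?_, fun w hw heq => hnP (by
        rw [← heq]; exact htP v w hw)⟩
      · by_cases hU : v ∈ U
        · rw [hFbU v hU] at h4
          exact h4
        · rw [X.F0 v hU]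
          simp
      · intro hU heq
        rw [hFbc v hU] at h4
        exact h4 (by rw [heq]; simp)
  have hcr4 : ∀ e ∈ E, ∀ f ∈ E, ∀ v, (e.1 = v ∨ e.2 = v) → (f.1 = v ∨ f.2 = v) →
      cr e = cr f → e = f := by
    intro e he f hf v hev hfv heq
    have hsh : Lin.Share e f := by
      unfold Lin.Share
      rcases hev with h | h <;> rcases hfv with h' | h'
      · exact Or.inl (h.trans h'.symm)
      · exact Or.inr (Or.inl (h.trans h'.symm))
      · exact Or.inr (Or.inr (Or.inl (h.trans h'.symm)))
      · exact Or.inr (Or.inr (Or.inr (h.trans h'.symm)))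
    by_cases h : ∃ b, e ∈ Mt.M (Sum.inl b)
    · have h1 := hcr1 e h
      by_cases h' : ∃ b, f ∈ Mt.M (Sum.inl b)
      · have h1' := hcr1 f h'
        rw [← heq] at h1'
        exact Mt.Mm _ e h1 f h1' hsh
      · obtain ⟨h2, h3⟩ := hcr2 f hf h'
        have h4 := (hcol1 f h3).1
        rw [← h2, ← heq, hL, mem_sdiff] at h4
        exact absurd (hMP _ e h1) h4.2
    · obtain ⟨h2, h3⟩ := hcr2 e he h
      by_cases h' : ∃ b, f ∈ Mt.M (Sum.inl b)
      · have h1' := hcr1 f h'
        have h4 := (hcol1 e h3).1
        rw [← h2, heq, hL, mem_sdiff] at h4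
        exact absurd (hMP _ f h1') h4.2
      · obtain ⟨h2', h3'⟩ := hcr2 f hf h'
        by_contra hne
        exact hcol2 e f h3 h3' hne hsh (by rw [← h2, ← h2', heq])
  -- the colouring
  have hxE : ∀ v w, G.Adj v w → X.side v ≠ X.side w → xp X.side v w ∈ E := by
    intro v w h hs
    rw [hE, mem_CE]
    exact ⟨(xp_side X.side hs).1, (xp_side X.side hs).2, xp_adj X.side h⟩
  have hin : ∀ v w, G.Adj v w → X.side v = X.side w → X.R.Adj v w := fun v w h hs => ⟨h, hs⟩
  let t : V → V → Fin k := fun v w => if X.side v = X.side w then I.t v w else cr (xp X.side v w)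
  have ht1 : ∀ v w, X.side v = X.side w → t v w = I.t v w := fun v w h => if_pos h
  have ht2 : ∀ v w, X.side v ≠ X.side w → t v w = cr (xp X.side v w) := fun v w h => if_neg h
  refine ⟨t, fun v w hv hw h => X.cadj v w hv hw h, fun v u hu hv h => X.cF v hv u hu h,
    ⟨?_, ?_⟩, ?_, ?_⟩
  · intro v w
    by_cases hs : X.side v = X.side w
    · rw [ht1 v w hs, ht1 w v hs.symm]
      exact I.pec.1 v w
    · rw [ht2 v w hs, ht2 w v (Ne.symm hs), xp_symm X.side hs]
  · intro v w hw w' hw' heq
    have hw1 : G.Adj v w := by simpa [nb] using hw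
    have hw1' : G.Adj v w' := by simpa [nb] using hw'
    by_cases hs : X.side v = X.side w
    · rw [ht1 v w hs] at heq
      by_cases hs' : X.side v = X.side w'
      · rw [ht1 v w' hs'] at heq
        exact I.pec.2 v (by simp [nb, hin v w hw1 hs]) (by simp [nb, hin v w' hw1' hs']) heq
      · rw [ht2 v w' hs'] at heq
        exact absurd heq ((hcr3 _ (hxE v w' hw1' hs') v (xp_mem _ v w')).2.2 w (hin v w hw1 hs))
    · rw [ht2 v w hs] at heq
      by_cases hs' : X.side v = X.side w'
      · rw [ht1 v w' hs'] at heq
        exact absurd heq.symm ((hcr3 _ (hxE v w hw1 hs) v (xp_mem _ v w)).2.2 w'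
          (hin v w' hw1' hs'))
      · rw [ht2 v w' hs'] at heq
        exact xp_inj X.side (hcr4 _ (hxE v w hw1 hs) _ (hxE v w' hw1' hs') v (xp_mem _ v w)
          (xp_mem _ v w') heq)
  · intro v w h
    by_cases hs : X.side v = X.side w
    · rw [ht1 v w hs]
      exact I.tF v w (hin v w h hs)
    · rw [ht2 v w hs]
      exact (hcr3 _ (hxE v w h hs) v (xp_mem _ v w)).1
  · intro v w hv h
    by_cases hs : X.side v = X.side w
    · rw [ht1 v w hs]
      exact I.tc v w hv (hin v w h hs)
    · rw [ht2 v w hs]
      exact (hcr3 _ (hxE v w h hs) v (xp_mem _ v w)).2.1 hv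

end Pool.Agent.Work.MP_db9399_exp.helper38
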