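import Pool.Agent.Work.MP_db9399_exp.Interface

/-! THEOREM EXP: basic facts about the context (helper38). -/

set_option autoImplicit false
set_option linter.unusedSectionVars false

namespace Pool.Agent.Work.MP_db9399_exp.helper38

universe u

open Finset Classical
open Pool.Agent.Work.MP_db9399_all (nb)
open Pool.Agent.Work.MP_db9399_qr (cov PEC ins sd PMat W0 imb ZQ Good)
open _root_.MP_db9399_co

section num
variable {m r : ℕ} {V : Type u} [Fintype V] {k d : ℕ} {G : SimpleGraph V} {U : Finset V}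
  {F : V → Finset (Fin k)} (X : Ctx m r k d G U F)

include X

lemma num_M : (10 : ℝ) ^ 9 ≤ 2 * (m : ℝ) + 1 := by
  have h1 := X.mbig
  have h2 := X.g1
  have h3 := X.g0
  have h4 : X.g ^ 2 ≤ 1 / 10 ^ 4 := by
    calc X.g ^ 2 ≤ (1 / 100) ^ 2 := pow_le_pow_left₀ h3.le h2 2
      _ = 1 / 10 ^ 4 := by norm_num
  have h5 : (0 : ℝ) ≤ 2 * (m : ℝ) + 1 := by positivity
  have h6 : X.g ^ 2 * (2 * (m : ℝ) + 1) ≤ 1 / 10 ^ 4 * (2 * (m : ℝ) + 1) :=
    mul_le_mul_of_nonneg_right h4 h5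
  have h7 : (10 : ℝ) ^ 5 ≤ 1 / 10 ^ 4 * (2 * (m : ℝ) + 1) := le_trans h1 h6
  linarith

lemma num_m : 1 ≤ m := by
  have h := num_M X
  have : (1 : ℝ) ≤ (m : ℝ) := by
    have : (3 : ℝ) ≤ 10 ^ 9 := by norm_num
    linarith
  exact_mod_cast this

lemma num_R : (100 : ℝ) * (2 * (m : ℝ) + 1) ≤ 2 * (r : ℝ) + 1 := by
  have h1 := X.rbig
  have h2 := num_M X
  have h3 : (1 : ℝ) ≤ 2 * (m : ℝ) + 1 := by
    have : (1 : ℝ) ≤ 10 ^ 9 := by norm_num
    linarith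
  have h4 : (2 * (m : ℝ) + 1) ^ 1 ≤ (2 * (m : ℝ) + 1) ^ 7 := pow_le_pow_right₀ h3 (by norm_num)
  rw [pow_one] at h4
  linarith

lemma num_r : 100 ≤ r := by
  have h := num_R X
  have h2 := num_M X
  have : (100 : ℝ) ≤ (r : ℝ) := by
    have : (300 : ℝ) ≤ 10 ^ 9 := by norm_num
    linarith
  exact_mod_cast this

lemma num_dl : X.dl ≤ 1 := by
  have h1 := X.dlsm
  have h2 := num_M X
  have h0 := X.dl0
  have h3 : (1 : ℝ) ≤ 2 * (m : ℝ) + 1 := by
    have : (1 : ℝ) ≤ 10 ^ 9 := by norm_num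
    linarith
  have h4 : (1 : ℝ) ≤ 2 * (r : ℝ) + 1 := by
    have : (0 : ℝ) ≤ (r : ℝ) := Nat.cast_nonneg r
    linarith
  have h5 : (1 : ℝ) ≤ (2 * (m : ℝ) + 1) ^ 12 := one_le_pow₀ h3
  have h6 : (1 : ℝ) ≤ (2 * (r : ℝ) + 1) ^ 2 := one_le_pow₀ h4
  have h7 : (1 : ℝ) ≤ 10 ^ 6 * (2 * (m : ℝ) + 1) ^ 12 * (2 * (r : ℝ) + 1) ^ 2 := by
    have h8 : (1 : ℝ) ≤ 10 ^ 6 * (2 * (m : ℝ) + 1) ^ 12 := by nlinarith
    nlinarith
  have h8 : X.g ^ 2 ≤ 1 := by
    have := X.g0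
    have := X.g1
    nlinarith
  nlinarith

lemma num_d : (10 : ℝ) ^ 6 * (2 * (m : ℝ) + 1) ^ 20 * (2 * (r : ℝ) + 1) ^ 3 ≤ d := by
  have h1 := X.dbig
  have h2 := num_dl X
  have h0 := X.dl0
  have h3 : (0 : ℝ) ≤ (d : ℝ) := Nat.cast_nonneg d
  nlinarith

lemma num_dn : 2 * (d : ℝ) ≤ Fintype.card V := by
  have h1 := X.n2
  have h2 := X.g0
  have h3 : (0 : ℝ) ≤ (d : ℝ) := Nat.cast_nonneg d
  nlinarith

lemma card_atoms : Fintype.card (Atom m r) = 2 * ((2 * m + 1) * (2 * r + 1)) := by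
  simp [Atom, Fintype.card_prod, ZMod.card]

/-- the ordinary vertices are distributed among the atoms -/
lemma sum_atoms : (univ.filter (fun v => v ∉ U)).card = ∑ a : Atom m r, (cls U X.at' {a}).card := by
  have h := Finset.card_eq_sum_card_fiberwise (f := X.at') (s := univ.filter (fun v => v ∉ U))
    (t := (univ : Finset (Atom m r))) (fun v _ => mem_coe.2 (mem_univ _))
  rw [h]
  refine Finset.sum_congr rfl fun a _ => ?_
  congr 1
  ext v
  simp [cls]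

lemma num_n : (Fintype.card V : ℝ) - U.card ≤
    2 * ((2 * (m : ℝ) + 1) * (2 * (r : ℝ) + 1)) * (X.N + 1) := by
  have h1 := sum_atoms X
  have h2 : (univ.filter (fun v => v ∉ U)).card + U.card = Fintype.card V := by
    have := Finset.card_filter_add_card_filter_not (s := (univ : Finset V)) (fun v => v ∈ U)
    rw [Finset.card_univ] at this
    have h3 : (univ.filter (fun v => v ∈ U)).card = U.card := by
      congr 1
      ext v
      simp
    omega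
  have h3 : ∑ a : Atom m r, (cls U X.at' {a}).card ≤ ∑ _a : Atom m r, (X.N + 1) :=
    Finset.sum_le_sum fun a _ => (X.atN a).2
  rw [Finset.sum_const, Finset.card_univ, card_atoms X, smul_eq_mul] at h3
  have h4 : (univ.filter (fun v => v ∉ U)).card ≤ 2 * ((2 * m + 1) * (2 * r + 1)) * (X.N + 1) := by
    omega
  have h5 : ((univ.filter (fun v => v ∉ U)).card : ℝ) + U.card = Fintype.card V := by
    exact_mod_cast h2
  have h6 : ((univ.filter (fun v => v ∉ U)).card : ℝ) ≤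
      2 * ((2 * (m : ℝ) + 1) * (2 * (r : ℝ) + 1)) * (X.N + 1) := by
    exact_mod_cast h4
  linarith

/-- `N` is large -/
lemma num_N : 10 ^ 4 * ((2 * (m : ℝ) + 1) * (2 * (r : ℝ) + 1)) ≤ X.N ∧ 100 * (U.card : ℝ) ≤ X.N ∧
    (Fintype.card V : ℝ) ≤ 4 * ((2 * (m : ℝ) + 1) * (2 * (r : ℝ) + 1)) * X.N := by
  have hM := num_M X
  have hR := num_R X
  have hd := num_d X
  have hn := num_n X
  have hdn := num_dn X
  have hU := X.Ucard
  set M1 : ℝ := 2 * (m : ℝ) + 1 with hM1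
  set R1 : ℝ := 2 * (r : ℝ) + 1 with hR1
  set n : ℝ := (Fintype.card V : ℝ) with hnn
  have h1 : (1 : ℝ) ≤ M1 := by
    have : (1 : ℝ) ≤ 10 ^ 9 := by norm_num
    linarith
  have h2 : (1 : ℝ) ≤ R1 := by linarith
  have hMR : 1 ≤ M1 * R1 := one_le_mul_of_one_le_of_one_le h1 h2
  have hd1 : 10 ^ 6 * (M1 * R1) ^ 3 ≤ d := by
    refine le_trans ?_ hd
    rw [mul_pow]
    have : M1 ^ 3 ≤ M1 ^ 20 := pow_le_pow_right₀ h1 (by norm_num)
    have h3 : 0 ≤ R1 ^ 3 := by positivity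
    nlinarith
  have hd2 : 10 ^ 6 * (M1 * R1) ^ 2 ≤ d := by
    refine le_trans ?_ hd1
    have : (M1 * R1) ^ 2 ≤ (M1 * R1) ^ 3 := pow_le_pow_right₀ hMR (by norm_num)
    linarith
  have hd3 : 10 ^ 6 ≤ (d : ℝ) := by
    refine le_trans ?_ hd2
    have : (1 : ℝ) ≤ (M1 * R1) ^ 2 := one_le_pow₀ hMR
    linarith
  have hn0 : 0 ≤ n := by linarith
  have hU2 : (U.card : ℝ) * 10 ^ 6 * (M1 * R1) ^ 2 ≤ 3 * n := by
    have h3 : (U.card : ℝ) * (10 ^ 6 * (M1 * R1) ^ 2) ≤ U.card * d :=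
      mul_le_mul_of_nonneg_left hd2 (Nat.cast_nonneg _)
    linarith
  have hU3 : (U.card : ℝ) * 10 ^ 6 * (M1 * R1) ≤ 3 * n := by
    refine le_trans ?_ hU2
    have h3 : M1 * R1 ≤ (M1 * R1) ^ 2 := by nlinarith
    have h4 : (0 : ℝ) ≤ U.card * 10 ^ 6 := by positivity
    nlinarith
  have hU4 : (U.card : ℝ) * 10 ^ 6 ≤ 3 * n := by
    refine le_trans ?_ hU3
    have h4 : (0 : ℝ) ≤ U.card * 10 ^ 6 := by positivity
    nlinarith
  -- n ≤ 3 * M1 R1 (N+1)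
  have h5 : n ≤ 3 * (M1 * R1) * (X.N + 1) := by
    have : n - U.card ≤ 2 * (M1 * R1) * (X.N + 1) := hn
    have h6 : (U.card : ℝ) ≤ 3 / 10 ^ 6 * n := by linarith
    have h7 : n * (1 - 3 / 10 ^ 6) ≤ 2 * (M1 * R1) * (X.N + 1) := by linarith
    nlinarith
  have h6 : 10 ^ 5 * (M1 * R1) ≤ (X.N : ℝ) + 1 := by
    have h7 : 10 ^ 6 * (M1 * R1) * (M1 * R1) ≤ 3 * (M1 * R1) * (X.N + 1) := by
      calc 10 ^ 6 * (M1 * R1) * (M1 * R1) = 10 ^ 6 * (M1 * R1) ^ 2 := by ring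
        _ ≤ (d : ℝ) := hd2
        _ ≤ n := by linarith
        _ ≤ _ := h5
    have h8 : 0 < M1 * R1 := by linarith
    have h9 : 10 ^ 6 * (M1 * R1) ≤ 3 * (X.N + 1) := by
      have h10 : (M1 * R1) * (10 ^ 6 * (M1 * R1)) ≤ (M1 * R1) * (3 * (X.N + 1)) := by linarith
      exact le_of_mul_le_mul_left h10 h8
    linarith
  have h7 : (1 : ℝ) ≤ X.N := by nlinarith
  refine ⟨by linarith, ?_, ?_⟩
  · have h8 : (U.card : ℝ) * 10 ^ 6 * (M1 * R1) ≤ 9 * (M1 * R1) * (X.N + 1) := by linarith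
    have h9 : 0 < M1 * R1 := by linarith
    have h10 : (U.card : ℝ) * 10 ^ 6 ≤ 9 * (X.N + 1) := by
      have h11 : (M1 * R1) * (U.card * 10 ^ 6) ≤ (M1 * R1) * (9 * (X.N + 1)) := by linarith
      exact le_of_mul_le_mul_left h11 h9
    linarith
  · have h8 : (X.N : ℝ) + 1 ≤ 4 / 3 * X.N := by linarith
    calc n ≤ 3 * (M1 * R1) * (X.N + 1) := h5
      _ ≤ 3 * (M1 * R1) * (4 / 3 * X.N) := by
          apply mul_le_mul_of_nonneg_left h8
          linarith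
      _ = 4 * (M1 * R1) * X.N := by ring

/-- number of colours with given `gs` -/
lemma card_gs (s : ZMod (2 * r + 1)) :
    (X.Ga.filter (fun b => X.gs b = s)).card ≤ (2 * m + 1) ^ 2 * X.u := by
  have h : (X.Ga.filter (fun b => X.gs b = s)).card ≤
      ((univ : Finset (ZMod (2 * m + 1) × ZMod (2 * m + 1))) ×ˢ range X.u).card := by
    apply Finset.card_le_card_of_injOn (fun b => ((X.gi b, X.gj b), X.gk b))
    · intro b hb
      rw [mem_coe, mem_filter] at hb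
      rw [mem_coe, mem_product]
      exact ⟨mem_univ _, mem_range.2 (X.glt b hb.1)⟩
    · intro b hb b' hb' h
      rw [mem_coe, mem_filter] at hb hb'
      simp only [Prod.mk.injEq] at h
      exact X.ginj b hb.1 b' hb'.1 h.1.1 h.1.2 (hb.2.trans hb'.2.symm) h.2
  refine le_trans h (le_of_eq ?_)
  rw [card_product, card_univ, Fintype.card_prod, ZMod.card, card_range]
  ring

lemma num_u : (2 * (m : ℝ) + 1) ^ 2 * X.u * (2 * (r : ℝ) + 1) ≤ 51 / 100 * d := by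
  have h1 := X.uhi
  have hM := num_M X
  have hm := num_m X
  have hd0 : (0 : ℝ) ≤ d := Nat.cast_nonneg d
  set M1 : ℝ := 2 * (m : ℝ) + 1 with hM1
  set R1 : ℝ := 2 * (r : ℝ) + 1 with hR1
  have h2 : 2 * (m : ℝ) = M1 - 1 := by rw [hM1]; ring
  have h3 : (10 : ℝ) ^ 9 ≤ M1 := hM
  have h4 : (1 - 1 / (2 * M1 ^ 7)) * (d : ℝ) ≤ d := by
    have : 0 ≤ 1 / (2 * M1 ^ 7) := by positivity
    nlinarith
  have h5 : 2 * M1 * R1 * ((M1 - 1) * X.u) ≤ d := by
    rw [← h2]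
    exact h1.trans h4
  have h6 : (0 : ℝ) ≤ R1 * X.u := by
    have : (0 : ℝ) ≤ R1 := by rw [hR1]; positivity
    exact mul_nonneg this (Nat.cast_nonneg _)
  have h8 : M1 ≤ 1.02 * (M1 - 1) := by nlinarith
  have h9 : M1 ^ 2 * X.u * R1 = M1 * M1 * (R1 * X.u) := by ring
  rw [h9]
  have h10 : M1 * M1 * (R1 * X.u) ≤ M1 * (1.02 * (M1 - 1)) * (R1 * X.u) := by
    apply mul_le_mul_of_nonneg_right _ h6
    apply mul_le_mul_of_nonneg_left h8
    linarith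
  nlinarith

end num

end Pool.Agent.Work.MP_db9399_exp.helper38
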