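import Pool.Agent.Work.MP_db9399_exp_helper38.CUT

/-! THEOREM EXP, block INS, counts (helper38). -/

set_option autoImplicit false
set_option linter.unusedSectionVars false

namespace Pool.Agent.Work.MP_db9399_exp.helper38

universe u

open Finset Classical
open Pool.Agent.Work.MP_db9399_all (nb)
open Pool.Agent.Work.MP_db9399_qr (cov PEC ins sd PMat W0 imb ZQ Good)
open _root_.MP_db9399_co

namespace INSAux

open CUTAux

variable {m r : ℕ} {V : Type u} [Fintype V] {k d : ℕ} {G : SimpleGraph V} {U : Finset V}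
  {F : V → Finset (Fin k)} (X : Ctx m r k d G U F)

/-- number of colours of `Ga` with a property of `gi`, `gj`, `gs` -/
lemma Ga_filter_card (Q : Fin k → Prop) [DecidablePred Q]
    (Q' : ZMod (2 * m + 1) × ZMod (2 * m + 1) × ZMod (2 * r + 1) → Prop) [DecidablePred Q']
    (hQ : ∀ b, Q b ↔ Q' (X.gi b, X.gj b, X.gs b)) :
    (X.Ga.filter Q).card = (univ.filter Q').card * X.u := by
  have h : (X.Ga.filter Q).card = ((univ.filter Q') ×ˢ range X.u).card := by
    refine Finset.card_bij (fun b _ => ((X.gi b, X.gj b, X.gs b), X.gk b)) ?_ ?_ ?_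
    · intro b hb
      rw [mem_filter] at hb
      rw [mem_product, mem_filter]
      exact ⟨⟨mem_univ _, (hQ b).1 hb.2⟩, mem_range.2 (X.glt b hb.1)⟩
    · intro b hb b' hb' h
      rw [mem_filter] at hb hb'
      simp only [Prod.mk.injEq] at h
      exact X.ginj b hb.1 b' hb'.1 h.1.1 h.1.2.1 h.1.2.2 h.2
    · rintro ⟨⟨i, j, s⟩, l⟩ hp
      rw [mem_product, mem_filter, mem_range] at hp
      obtain ⟨b, hb, h1, h2, h3, h4⟩ := X.gex i j s l hp.2
      refine ⟨b, ?_, ?_⟩
      · rw [mem_filter]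
        refine ⟨hb, (hQ b).2 ?_⟩
        rw [h1, h2, h3]
        exact hp.1.2
      · rw [h1, h2, h3, h4]
  rw [h, card_product, card_range]

lemma Ga_group (i j : ZMod (2 * m + 1)) :
    (X.Ga.filter (fun b => X.gi b = i ∧ X.gj b = j)).card = (2 * r + 1) * X.u := by
  rw [Ga_filter_card X (fun b => X.gi b = i ∧ X.gj b = j) (fun p => p.1 = i ∧ p.2.1 = j)
    (fun b => Iff.rfl)]
  congr 1
  have : (univ.filter (fun p : ZMod (2 * m + 1) × ZMod (2 * m + 1) × ZMod (2 * r + 1) =>
      p.1 = i ∧ p.2.1 = j)) = ({i} : Finset _) ×ˢ (({j} : Finset _) ×ˢ univ) := by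
    ext ⟨p1, p2, p3⟩
    simp only [mem_filter, mem_univ, true_and, mem_product, mem_singleton, and_true]
  rw [this, card_product, card_product, card_univ, ZMod.card]
  simp

lemma Ga_card : X.Ga.card = (2 * m + 1) ^ 2 * ((2 * r + 1) * X.u) := by
  have h := Ga_filter_card X (fun _ => True) (fun _ => True) (fun b => Iff.rfl)
  have h1 : X.Ga.filter (fun _ => True) = X.Ga := filter_true_of_mem (fun _ _ => trivial)
  have h2 : (univ : Finset (ZMod (2 * m + 1) × ZMod (2 * m + 1) × ZMod (2 * r + 1))).filter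
    (fun _ => True) = univ := filter_true_of_mem (fun _ _ => trivial)
  rw [h1, h2] at h
  rw [h, card_univ, Fintype.card_prod, Fintype.card_prod, ZMod.card, ZMod.card]
  ring

lemma Ga_nonidle (v : V) (hv : v ∉ U) :
    (X.Ga.filter (fun b => ¬ X.idl b v)).card = 2 * m * (2 * m + 1) * (2 * r + 1) * X.u := by
  cases hs : X.side v
  · rw [Ga_filter_card X (fun b => ¬ X.idl b v) (fun p => p.2.1 ≠ X.cell v) (fun b => by
      rw [idl_iff]
      simp only [ic, hs]
      simp [hv])]
    congr 1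
    have : (univ.filter (fun p : ZMod (2 * m + 1) × ZMod (2 * m + 1) × ZMod (2 * r + 1) =>
        p.2.1 ≠ X.cell v)) = univ ×ˢ ((univ.erase (X.cell v)) ×ˢ univ) := by
      ext ⟨p1, p2, p3⟩
      simp
    rw [this, card_product, card_product, card_erase_of_mem (mem_univ _), card_univ, card_univ,
      ZMod.card, ZMod.card]
    have : 2 * m + 1 - 1 = 2 * m := by omega
    rw [this]
    ring
  · rw [Ga_filter_card X (fun b => ¬ X.idl b v) (fun p => p.1 ≠ X.cell v) (fun b => by
      rw [idl_iff]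
      simp only [ic, hs]
      simp [hv])]
    congr 1
    have : (univ.filter (fun p : ZMod (2 * m + 1) × ZMod (2 * m + 1) × ZMod (2 * r + 1) =>
        p.1 ≠ X.cell v)) = (univ.erase (X.cell v)) ×ˢ (univ ×ˢ univ) := by
      ext ⟨p1, p2, p3⟩
      simp
    rw [this, card_product, card_product, card_erase_of_mem (mem_univ _), card_univ, card_univ,
      ZMod.card, ZMod.card]
    have : 2 * m + 1 - 1 = 2 * m := by omega
    rw [this]
    ring

/-- `2 |Ga| ≥ d` and `|Ga| ≤ d` -/
lemma num_Ga : (d : ℝ) ≤ 2 * X.Ga.card ∧ (X.Ga.card : ℝ) ≤ 51 / 100 * d := by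
  have h1 := Ga_card X
  have h2 : (X.Ga.card : ℝ) = (2 * (m : ℝ) + 1) ^ 2 * ((2 * r + 1) * X.u) := by
    rw [h1]
    push_cast
    ring
  constructor
  · have h3 := X.ulo
    have hM := num_M X
    rw [h2]
    set M1 : ℝ := 2 * (m : ℝ) + 1 with hM1
    set R1 : ℝ := 2 * (r : ℝ) + 1 with hR1
    have e1 : 2 * (m : ℝ) = M1 - 1 := by rw [hM1]; ring
    rw [e1] at h3
    have hd0 : (0 : ℝ) ≤ d := Nat.cast_nonneg d
    have g1 : (1 : ℝ) < M1 := by
      have : (1 : ℝ) < 10 ^ 9 := by norm_num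
      linarith
    -- (1 - 1/M1^7) d ≤ 2 M1 R1 (M1 - 1) u
    have g2 : 1 / M1 ^ 7 ≤ 1 / M1 := by
      apply one_div_le_one_div_of_le (by linarith)
      calc M1 = M1 ^ 1 := (pow_one _).symm
        _ ≤ M1 ^ 7 := pow_le_pow_right₀ g1.le (by norm_num)
    have g3 : (1 - 1 / M1) * d ≤ 2 * M1 * R1 * ((M1 - 1) * X.u) := by
      refine le_trans ?_ h3
      apply mul_le_mul_of_nonneg_right _ hd0
      linarith
    have g4 : (M1 - 1) * d ≤ (M1 - 1) * (2 * (M1 ^ 2 * (R1 * X.u))) := by
      have g5 : M1 * ((1 - 1 / M1) * d) ≤ M1 * (2 * M1 * R1 * ((M1 - 1) * X.u)) :=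
        mul_le_mul_of_nonneg_left g3 (by linarith)
      have g6 : M1 * ((1 - 1 / M1) * d) = (M1 - 1) * d := by
        field_simp
      rw [g6] at g5
      refine g5.trans (le_of_eq ?_)
      ring
    exact le_of_mul_le_mul_left g4 (by linarith)
  · have h3 := num_u X
    rw [h2]
    refine le_trans (le_of_eq ?_) h3
    ring

/-- the targets are possible -/
lemma num_T : ((d - X.Ga.card) / (2 * m + 1) ^ 2 : ℕ) ≤ (2 * r + 1) * X.u := by
  obtain ⟨h1, h2⟩ := num_Ga X
  have h3 : d ≤ 2 * X.Ga.card := by exact_mod_cast h1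
  have h4 := Ga_card X
  rw [Nat.div_le_iff_le_mul_add_pred (by positivity)]
  have : d - X.Ga.card ≤ X.Ga.card := by omega
  rw [h4] at this
  rw [h4]
  omega

end INSAux

end Pool.Agent.Work.MP_db9399_exp.helper38
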