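import Pool.Agent.Work.MP_db9399_exp_helper38.INSN

/-! THEOREM EXP, block INS, degrees of the pool graph (helper38). -/

set_option autoImplicit false
set_option linter.unusedSectionVars false

namespace Pool.Agent.Work.MP_db9399_exp.helper38

universe u

open Finset Classical
open Pool.Agent.Work.MP_db9399_all (nb)
open Pool.Agent.Work.MP_db9399_qr (cov PEC ins sd PMat W0 imb ZQ Good)
open _root_.MP_db9399_co

namespace INSAux

open CUTAux

variable {m r : ℕ} {V : Type u} [Fintype V] {k d : ℕ} {G : SimpleGraph V} {U : Finset V}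
  {F : V → Finset (Fin k)} (X : Ctx m r k d G U F)

lemma mem_nb' (G : SimpleGraph V) (v w : V) : w ∈ nb G v ↔ G.Adj v w := by
  unfold nb
  rw [mem_filter]
  exact ⟨fun h => h.2, fun h => ⟨mem_univ _, h⟩⟩

/-- the degree into a union of atoms -/
lemma deg_cls (v : V) (P : Finset (Atom m r)) :
    ((nb G v ∩ cls U X.at' P).card : ℝ) ≤
      P.card * ((d : ℝ) / (2 * (2 * m + 1) * (2 * r + 1)) + X.dl * d) := by
  have h1 : nb G v ∩ cls U X.at' P = P.biUnion (fun a => nb G v ∩ cls U X.at' {a}) := by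
    rw [cls_biUnion X P]
    ext w
    simp only [mem_inter, mem_biUnion]
    constructor
    · rintro ⟨h1, a, h2, h3⟩
      exact ⟨a, h2, h1, h3⟩
    · rintro ⟨a, h2, h1, h3⟩
      exact ⟨h1, a, h2, h3⟩
  rw [h1]
  have h2 : ((P.biUnion (fun a => nb G v ∩ cls U X.at' {a})).card : ℝ) ≤
      ∑ a ∈ P, ((nb G v ∩ cls U X.at' {a}).card : ℝ) := by
    exact_mod_cast card_biUnion_le
  refine h2.trans ?_
  rw [← nsmul_eq_mul]
  refine Finset.sum_le_card_nsmul _ _ _ (fun a _ => ?_)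
  have h3 := (abs_le.1 (X.degat v a)).2
  have h4 : (cls U (fun v => (X.side v, X.cell v, X.sub v)) {a}) = cls U X.at' {a} := rfl
  rw [h4] at h3
  linarith

/-- the inside degree -/
lemma deg_R (v : V) : ((nb X.R v).card : ℝ) ≤
    (2 * m + 1) * (2 * r + 1) * ((d : ℝ) / (2 * (2 * m + 1) * (2 * r + 1)) + X.dl * d) + 1 := by
  have h1 : nb X.R v ⊆ (nb G v ∩ cls U X.at' (univ.filter (fun a : Atom m r => a.1 = X.side v))) ∪
      univ.filter (fun u => u ∈ U ∧ G.Adj v u ∧ X.side u = X.side v) := by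
    intro w hw
    have hw' : G.Adj v w ∧ X.side v = X.side w := (mem_nb' _ _ _).1 hw
    rw [mem_union, mem_inter, mem_cls', mem_filter, mem_filter]
    by_cases hU : w ∈ U
    · exact Or.inr ⟨mem_univ _, hU, hw'.1, hw'.2.symm⟩
    · refine Or.inl ⟨?_, hU, mem_univ _, ?_⟩
      · exact (mem_nb' _ _ _).2 hw'.1
      · exact hw'.2.symm
  have h2 := (card_le_card h1).trans (card_union_le _ _)
  have h3 := X.U1 v (X.side v)
  have h4 := deg_cls X v (univ.filter (fun a : Atom m r => a.1 = X.side v))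
  have h5 : (univ.filter (fun a : Atom m r => a.1 = X.side v)).card = (2 * m + 1) * (2 * r + 1) := by
    have : univ.filter (fun a : Atom m r => a.1 = X.side v) =
        ({X.side v} : Finset Bool) ×ˢ (univ : Finset (ZMod (2 * m + 1) × ZMod (2 * r + 1))) := by
      ext ⟨a, b⟩
      simp only [mem_filter, mem_univ, true_and, mem_product, mem_singleton, and_true]
    rw [this, card_product, card_univ, Fintype.card_prod, ZMod.card, ZMod.card, card_singleton,
      one_mul]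
  rw [h5] at h4
  have h6 : ((nb X.R v).card : ℝ) ≤
      ((nb G v ∩ cls U X.at' (univ.filter (fun a : Atom m r => a.1 = X.side v))).card : ℝ) +
      ((univ.filter (fun u => u ∈ U ∧ G.Adj v u ∧ X.side u = X.side v)).card : ℝ) := by
    exact_mod_cast h2
  have h7 : ((univ.filter (fun u => u ∈ U ∧ G.Adj v u ∧ X.side u = X.side v)).card : ℝ) ≤ 1 := by
    exact_mod_cast h3
  push_cast at h4
  linarith

variable {Bs : Fin k → Finset (ZMod (2 * r + 1))} {lam : ℝ} (P : Col X Bs lam)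

/-- the edges without colour -/
def pool : SimpleGraph V where
  Adj v w := X.R.Adj v w ∧ ∀ b, ¬ P.E b v w
  symm := ⟨fun _ _ h => ⟨h.1.symm, fun b hb => h.2 b (P.sym _ _ _ hb)⟩⟩
  loopless := ⟨fun _ h => X.R.loopless.irrefl _ h.1⟩

lemma pool_deg (v : V) :
    (nb (pool X P) v).card + (X.Ga.filter (fun b => ∃ w, P.E b v w)).card = (nb X.R v).card := by
  have h1 := Finset.card_filter_add_card_filter_not (s := nb X.R v) (fun w => ∀ b, ¬ P.E b v w)
  have h2 : (nb X.R v).filter (fun w => ∀ b, ¬ P.E b v w) = nb (pool X P) v := by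
    ext w
    rw [mem_filter, mem_nb', mem_nb']
    rfl
  have h3 : ((nb X.R v).filter (fun w => ¬ ∀ b, ¬ P.E b v w)).card =
      (X.Ga.filter (fun b => ∃ w, P.E b v w)).card := by
    have hch : ∀ w ∈ (nb X.R v).filter (fun w => ¬ ∀ b, ¬ P.E b v w), ∃ b, P.E b v w := by
      intro w hw
      rw [mem_filter] at hw
      simpa using hw.2
    choose f hf using hch
    refine Finset.card_bij f ?_ ?_ ?_
    · intro w hw
      rw [mem_filter]
      exact ⟨(P.adj _ _ _ (hf w hw)).2, w, hf w hw⟩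
    · intro w hw w' hw' h
      have e1 := hf w hw
      have e2 := hf w' hw'
      rw [h] at e1
      exact P.inj _ _ _ _ e1 e2
    · intro b hb
      rw [mem_filter] at hb
      obtain ⟨hb, w, hw⟩ := hb
      have hw' : w ∈ (nb X.R v).filter (fun w => ¬ ∀ b, ¬ P.E b v w) := by
        rw [mem_filter]
        refine ⟨(mem_nb' _ _ _).2 (P.adj _ _ _ hw).1, ?_⟩
        simp only [not_forall, not_not]
        exact ⟨b, hw⟩
      exact ⟨w, hw', P.uniq _ _ _ _ (hf w hw') hw⟩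
  rw [h2] at h1
  omega

/-- small quantities -/
lemma num_small : (1 : ℝ) ≤ 2 * (m : ℝ) + 1 ∧ (1 : ℝ) ≤ 2 * (r : ℝ) + 1 ∧
    10 ^ 6 * (2 * (m : ℝ) + 1) ^ 8 * (2 * (r : ℝ) + 1) * X.dl ≤ 1 ∧
    10 ^ 6 * (2 * (m : ℝ) + 1) ^ 8 * (2 * (r : ℝ) + 1) ^ 2 ≤ d := by
  have hM := num_M X
  have hR := num_R X
  have h1 := X.dlsm
  have h2 := num_d X
  have h0 := X.dl0
  have hg : X.g ^ 2 ≤ 1 := by
    have := X.g0
    have := X.g1
    nlinarith
  set M1 : ℝ := 2 * (m : ℝ) + 1 with hM1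
  set R1 : ℝ := 2 * (r : ℝ) + 1 with hR1
  have g1 : (1 : ℝ) ≤ M1 := by
    have : (1 : ℝ) ≤ 10 ^ 9 := by norm_num
    linarith
  have g2 : (1 : ℝ) ≤ R1 := by linarith
  have g3 : M1 ^ 8 ≤ M1 ^ 12 := pow_le_pow_right₀ g1 (by norm_num)
  have g4 : M1 ^ 8 ≤ M1 ^ 20 := pow_le_pow_right₀ g1 (by norm_num)
  have g5 : R1 ≤ R1 ^ 2 := by nlinarith
  have g6 : R1 ^ 2 ≤ R1 ^ 3 := pow_le_pow_right₀ g2 (by norm_num)
  have g7 : 0 ≤ M1 ^ 8 := by positivity
  have g8 : 0 ≤ R1 := by linarith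
  refine ⟨g1, g2, ?_, ?_⟩
  · have h3 : M1 ^ 8 * R1 ≤ M1 ^ 12 * R1 ^ 2 := mul_le_mul g3 g5 g8 (by positivity)
    have h4 : 10 ^ 6 * (M1 ^ 8 * R1) * X.dl ≤ 10 ^ 6 * (M1 ^ 12 * R1 ^ 2) * X.dl := by
      apply mul_le_mul_of_nonneg_right _ h0.le
      linarith
    linarith
  · have h3 : M1 ^ 8 * R1 ^ 2 ≤ M1 ^ 20 * R1 ^ 3 := mul_le_mul g4 g6 (by positivity) (by positivity)
    linarith

end INSAux

namespace INSAux

open CUTAux

variable {m r : ℕ} {V : Type u} [Fintype V] {k d : ℕ} {G : SimpleGraph V} {U : Finset V}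
  {F : V → Finset (Fin k)} (X : Ctx m r k d G U F) (P : Col X (fun b => X.Fs b ∪ X.Ds b) 8)

lemma pool_deg_le (v : V) : (nb (pool X P) v).card ≤ ⌊(d : ℝ) / (2 * (m : ℝ) + 1) ^ 7⌋₊ := by
  by_cases hv : v ∈ U
  · have : nb (pool X P) v = ∅ := by
      rw [eq_empty_iff_forall_notMem]
      intro w hw
      rw [mem_nb'] at hw
      obtain ⟨b, hb⟩ := P.EU v hv w hw.1
      exact hw.2 b hb
    rw [this]
    simp
  apply Nat.le_floor
  have h1 := pool_deg X P v
  have h2 := deg_R X v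
  have h3 := P.hcnt v hv
  have h4 := Ga_nonidle X v hv
  have h5 : (X.Ga.filter (fun b => ¬ X.idl b v)).card ≤
      (X.Ga.filter (fun b => ∃ w, P.E b v w)).card +
        (X.Ga.filter (fun b => ¬ X.idl b v ∧ ∀ w, ¬ P.E b v w)).card := by
    refine le_trans (card_le_card ?_) (card_union_le _ _)
    intro b hb
    rw [mem_filter] at hb
    rw [mem_union, mem_filter, mem_filter]
    by_cases hE : ∃ w, P.E b v w
    · exact Or.inl ⟨hb.1, hE⟩
    · exact Or.inr ⟨hb.1, hb.2, fun w hw => hE ⟨w, hw⟩⟩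
  rw [h4] at h5
  have h6 := X.ulo
  have h7 : ((nb (pool X P) v).card : ℝ) + ((X.Ga.filter (fun b => ∃ w, P.E b v w)).card : ℝ) =
      ((nb X.R v).card : ℝ) := by exact_mod_cast h1
  have h8 : (2 * (m : ℝ) * (2 * m + 1) * (2 * r + 1) * X.u) ≤
      ((X.Ga.filter (fun b => ∃ w, P.E b v w)).card : ℝ) +
        ((X.Ga.filter (fun b => ¬ X.idl b v ∧ ∀ w, ¬ P.E b v w)).card : ℝ) := by
    exact_mod_cast h5
  obtain ⟨s1, s2, s3, s4⟩ := num_small X
  have hR := X.rbig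
  have hdl := X.dl0
  set M1 : ℝ := 2 * (m : ℝ) + 1 with hM1
  set R1 : ℝ := 2 * (r : ℝ) + 1 with hR1
  have hd0 : (0 : ℝ) ≤ d := Nat.cast_nonneg d
  have p1 : 0 < M1 := by linarith
  have p2 : 0 < R1 := by linarith
  have p3 : 0 < M1 ^ 7 := by positivity
  have e1 : M1 * R1 * ((d : ℝ) / (2 * M1 * R1) + X.dl * d) = d / 2 + M1 * R1 * X.dl * d := by
    field_simp
  rw [e1] at h2
  have e2 : (1 - 1 / M1 ^ 7) * (d : ℝ) = d - d / M1 ^ 7 := by
    field_simp
  rw [e2] at h6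
  have q1 : 8 * (d : ℝ) / R1 ≤ 8 / 100 * (d / M1 ^ 7) := by
    rw [div_le_iff₀ p2]
    have : 8 / 100 * (d / M1 ^ 7) * (100 * M1 ^ 7) ≤ 8 / 100 * (d / M1 ^ 7) * R1 := by
      apply mul_le_mul_of_nonneg_left hR
      positivity
    have e3 : 8 / 100 * ((d : ℝ) / M1 ^ 7) * (100 * M1 ^ 7) = 8 * d := by
      field_simp
    linarith
  have q2 : M1 * R1 * X.dl * d ≤ 1 / 100 * (d / M1 ^ 7) := by
    have : 1 / 100 * ((d : ℝ) / M1 ^ 7) = (1 / 100 * d) / M1 ^ 7 := by ring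
    rw [this, le_div_iff₀ p3]
    have e3 : M1 * R1 * X.dl * d * M1 ^ 7 = (M1 ^ 8 * R1 * X.dl) * d := by ring
    rw [e3]
    apply mul_le_mul_of_nonneg_right _ hd0
    nlinarith
  have q3 : 1 ≤ 1 / 100 * ((d : ℝ) / M1 ^ 7) := by
    have : 1 / 100 * ((d : ℝ) / M1 ^ 7) = (1 / 100 * d) / M1 ^ 7 := by ring
    rw [this, le_div_iff₀ p3]
    have e3 : M1 ^ 7 ≤ M1 ^ 8 * R1 ^ 2 := by
      have : M1 ^ 7 ≤ M1 ^ 8 := pow_le_pow_right₀ s1 (by norm_num)
      have h9 : (1 : ℝ) ≤ R1 ^ 2 := one_le_pow₀ s2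
      nlinarith [pow_pos p1 8]
    linarith
  have e4 : 2 * M1 * R1 * (2 * m * X.u) = 2 * (2 * (m : ℝ) * M1 * R1 * X.u) := by ring
  rw [e4] at h6
  linarith

lemma hloc_le (b : Fin k) (hb : b ∈ X.Ga) (y : V) (s : Bool) :
    (((nb G y).filter (fun v => v ∉ U ∧ X.side v = s ∧ ¬ X.idl b v ∧
      ∀ w, ¬ P.E b v w)).card : ℝ) ≤ 8 * d / (2 * r + 1) := by
  set Q : Finset (Atom m r) := ({s} : Finset Bool) ×ˢ
    ((univ : Finset (ZMod (2 * m + 1))) ×ˢ (X.Fs b ∪ X.Ds b)) with hQ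
  set Q2 : Finset (Atom m r) := univ.filter (fun a => a.1 = s ∧ ¬ X.idA b a ∧
    a.2.2 ∉ X.Fs b ∪ X.Ds b) with hQ2
  have h1 : (nb G y).filter (fun v => v ∉ U ∧ X.side v = s ∧ ¬ X.idl b v ∧ ∀ w, ¬ P.E b v w) ⊆
      (nb G y ∩ cls U X.at' Q) ∪
        Q2.biUnion (fun a => (cls U X.at' {a}).filter (fun v => ∀ w, ¬ P.E b v w)) := by
    intro v hv
    rw [mem_filter] at hv
    obtain ⟨h1, h2, h3, h4, h5⟩ := hv
    rw [mem_union]
    by_cases hs : X.sub v ∈ X.Fs b ∪ X.Ds b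
    · left
      rw [mem_inter, mem_cls', hQ, mem_product, mem_product, mem_singleton]
      exact ⟨h1, h2, h3, mem_univ _, hs⟩
    · right
      rw [mem_biUnion]
      refine ⟨X.at' v, ?_, ?_⟩
      · rw [hQ2, mem_filter]
        exact ⟨mem_univ _, h3, fun h => h4 ⟨h2, h⟩, hs⟩
      · rw [mem_filter, mem_cls', mem_singleton]
        exact ⟨⟨h2, rfl⟩, h5⟩
  have h2 := (card_le_card h1).trans (card_union_le _ _)
  have h3 : (Q2.biUnion (fun a => (cls U X.at' {a}).filter (fun v => ∀ w, ¬ P.E b v w))).card ≤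
      (2 * m + 1) * (2 * r + 1) := by
    have h4 := Finset.card_biUnion_le_card_mul Q2
      (fun a => (cls U X.at' {a}).filter (fun v => ∀ w, ¬ P.E b v w)) 1 (by
        intro a ha
        rw [hQ2, mem_filter] at ha
        exact P.part b hb a ha.2.2.1 ha.2.2.2)
    have h5 : Q2.card ≤ (2 * m + 1) * (2 * r + 1) := by
      have h8 : Q2 ⊆ (univ : Finset (ZMod (2 * m + 1) × ZMod (2 * r + 1))).image
          (fun p => ((s, p) : Atom m r)) := by
        rintro ⟨s', p⟩ h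
        rw [hQ2, mem_filter] at h
        rw [mem_image]
        have : s' = s := h.2.1
        exact ⟨p, mem_univ _, by rw [this]⟩
      refine le_trans (card_le_card h8) (le_trans card_image_le ?_)
      rw [card_univ, Fintype.card_prod, ZMod.card, ZMod.card]
    omega
  have h4 := deg_cls X y Q
  have h5 : Q.card ≤ 9 * (2 * m + 1) := by
    rw [hQ, card_product, card_product, card_univ, ZMod.card, card_singleton]
    have h6 := Fs_card X b
    have h7 := Ds_card X b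
    have h8 := card_union_le (X.Fs b) (X.Ds b)
    have h9 : (X.Fs b ∪ X.Ds b).card ≤ 9 := by omega
    nlinarith
  obtain ⟨s1, s2, s3, s4⟩ := num_small X
  have hdl := X.dl0
  have h6 : (Q.card : ℝ) ≤ 9 * (2 * m + 1) := by exact_mod_cast h5
  have h7 : (((nb G y).filter (fun v => v ∉ U ∧ X.side v = s ∧ ¬ X.idl b v ∧
      ∀ w, ¬ P.E b v w)).card : ℝ) ≤ ((nb G y ∩ cls U X.at' Q).card : ℝ) +
      ((Q2.biUnion (fun a => (cls U X.at' {a}).filter (fun v => ∀ w, ¬ P.E b v w))).card : ℝ) := by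
    exact_mod_cast h2
  have h8 : ((Q2.biUnion (fun a => (cls U X.at' {a}).filter
      (fun v => ∀ w, ¬ P.E b v w))).card : ℝ) ≤ (2 * m + 1) * (2 * r + 1) := by
    exact_mod_cast h3
  set M1 : ℝ := 2 * (m : ℝ) + 1 with hM1
  set R1 : ℝ := 2 * (r : ℝ) + 1 with hR1
  have hd0 : (0 : ℝ) ≤ d := Nat.cast_nonneg d
  have p1 : 0 < M1 := by linarith
  have p2 : 0 < R1 := by linarith
  have h9 : (Q.card : ℝ) * ((d : ℝ) / (2 * M1 * R1) + X.dl * d) ≤
      9 * M1 * ((d : ℝ) / (2 * M1 * R1) + X.dl * d) := by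
    apply mul_le_mul_of_nonneg_right h6
    positivity
  have e1 : 9 * M1 * ((d : ℝ) / (2 * M1 * R1) + X.dl * d) = 9 / 2 * (d / R1) + 9 * M1 * X.dl * d := by
    field_simp
  rw [e1] at h9
  have e2 : 8 * (d : ℝ) / R1 = 8 * (d / R1) := by ring
  rw [e2]
  have q1 : 9 * M1 * X.dl * d ≤ d / R1 := by
    rw [le_div_iff₀ p2]
    have e3 : 9 * M1 * X.dl * d * R1 = (9 * M1 * R1 * X.dl) * d := by ring
    rw [e3]
    have : 9 * M1 * R1 * X.dl ≤ 1 := by
      have h10 : M1 ≤ M1 ^ 8 := by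
        calc M1 = M1 ^ 1 := (pow_one _).symm
          _ ≤ M1 ^ 8 := pow_le_pow_right₀ s1 (by norm_num)
      have h11 : M1 * (R1 * X.dl) ≤ M1 ^ 8 * (R1 * X.dl) := by
        apply mul_le_mul_of_nonneg_right h10
        positivity
      nlinarith
    nlinarith
  have q2 : M1 * R1 ≤ d / R1 := by
    rw [le_div_iff₀ p2]
    have h10 : M1 ≤ M1 ^ 8 := by
      calc M1 = M1 ^ 1 := (pow_one _).symm
        _ ≤ M1 ^ 8 := pow_le_pow_right₀ s1 (by norm_num)
    have h11 : M1 * R1 ^ 2 ≤ M1 ^ 8 * R1 ^ 2 := mul_le_mul_of_nonneg_right h10 (by positivity)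
    nlinarith [pow_pos p1 8, pow_pos p2 2]
  linarith

end INSAux

end Pool.Agent.Work.MP_db9399_exp.helper38
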