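import Pool.Agent.Work.MP_db9399_exp_helper38.INSP

/-! THEOREM EXP, block INS, imbalances (helper38). -/

set_option autoImplicit false
set_option linter.unusedSectionVars false

namespace Pool.Agent.Work.MP_db9399_exp.helper38

universe u

open Finset Classical
open Pool.Agent.Work.MP_db9399_all (nb)
open Pool.Agent.Work.MP_db9399_qr (cov PEC ins sd PMat W0 imb ZQ Good)
open _root_.MP_db9399_co

namespace INSAux

open CUTAux

variable {m r : ℕ} {V : Type u} [Fintype V] {k d : ℕ} {G : SimpleGraph V} {U : Finset V}
  {F : V → Finset (Fin k)} (X : Ctx m r k d G U F)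

/-- sign of a side -/
def sg (s : Bool) : ℤ := if s = true then 1 else -1

lemma imb_sum (side : V → Bool) (W : Finset V) : imb side W = ∑ v ∈ W, sg (side v) := by
  unfold imb
  have h1 : ∀ s : Bool, ((W ∩ sd side s).card : ℤ) = ∑ v ∈ W, if side v = s then 1 else 0 := by
    intro s
    rw [Finset.sum_boole]
    congr 2
    ext v
    simp [sd]
  rw [h1, h1, ← Finset.sum_sub_distrib]
  refine Finset.sum_congr rfl fun v _ => ?_
  cases side v <;> simp [sg]

lemma imb_univ : ∑ v : V, sg (X.side v) = X.p := by
  have h := X.sides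
  have h1 := imb_sum X.side (univ : Finset V)
  unfold imb at h1
  rw [univ_inter, univ_inter, h] at h1
  rw [← h1]
  push_cast
  ring

/-- the signed sums of the degrees of `G` and of the inside graph agree -/
lemma sum_ins : ∑ v : V, sg (X.side v) * ((nb X.R v).card : ℤ) =
    ∑ v : V, sg (X.side v) * ((nb G v).card : ℤ) := by
  have h1 : ∀ v, ((nb G v).card : ℤ) = ((nb X.R v).card : ℤ) +
      ∑ w : V, if G.Adj v w ∧ X.side v ≠ X.side w then 1 else 0 := by
    intro v
    rw [Finset.sum_boole]
    have h2 := Finset.card_filter_add_card_filter_not (s := nb G v) (fun w => X.side v = X.side w)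
    have h3 : (nb G v).filter (fun w => X.side v = X.side w) = nb X.R v := by
      ext w
      rw [mem_filter, mem_nb', mem_nb']
      rfl
    have h4 : (nb G v).filter (fun w => ¬ X.side v = X.side w) =
        univ.filter (fun w => G.Adj v w ∧ X.side v ≠ X.side w) := by
      ext w
      rw [mem_filter, mem_nb', mem_filter]
      simp
    rw [h3, h4] at h2
    rw [← h2]
    push_cast
    ring
  have h2 : ∑ v : V, sg (X.side v) * (∑ w : V, if G.Adj v w ∧ X.side v ≠ X.side w then (1 : ℤ) else 0)
      = 0 := by
    have h3 : ∑ v : V, sg (X.side v) *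
        (∑ w : V, if G.Adj v w ∧ X.side v ≠ X.side w then (1 : ℤ) else 0) =
        - ∑ v : V, sg (X.side v) *
          (∑ w : V, if G.Adj v w ∧ X.side v ≠ X.side w then (1 : ℤ) else 0) := by
      conv_lhs => simp only [Finset.mul_sum]
      conv_rhs => simp only [Finset.mul_sum]
      conv_lhs => rw [Finset.sum_comm]
      rw [← Finset.sum_neg_distrib]
      refine Finset.sum_congr rfl fun w _ => ?_
      rw [← Finset.sum_neg_distrib]
      refine Finset.sum_congr rfl fun v _ => ?_
      by_cases h : G.Adj v w ∧ X.side v ≠ X.side w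
      · have h' : G.Adj w v ∧ X.side w ≠ X.side v := ⟨h.1.symm, h.2.symm⟩
        rw [if_pos h, if_pos h']
        have := h.2
        cases hv : X.side v <;> cases hw : X.side w <;> simp_all [sg]
      · have h' : ¬ (G.Adj w v ∧ X.side w ≠ X.side v) := fun h' => h ⟨h'.1.symm, h'.2.symm⟩
        rw [if_neg h, if_neg h']
        simp
    omega
  have h3 : ∑ v : V, sg (X.side v) * ((nb G v).card : ℤ) =
      ∑ v : V, (sg (X.side v) * ((nb X.R v).card : ℤ) + sg (X.side v) *
        (∑ w : V, if G.Adj v w ∧ X.side v ≠ X.side w then (1 : ℤ) else 0)) := by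
    refine Finset.sum_congr rfl fun v _ => ?_
    rw [h1 v]
    ring
  rw [h3, Finset.sum_add_distrib, h2, add_zero]

/-- a signed sum as a difference of two sums -/
lemma sum_sg (f : V → ℤ) (side : V → Bool) : ∑ v : V, sg (side v) * f v =
    (∑ v ∈ sd side true, f v) - ∑ v ∈ sd side false, f v := by
  unfold sd
  rw [Finset.sum_filter, Finset.sum_filter, ← Finset.sum_sub_distrib]
  refine Finset.sum_congr rfl fun v _ => ?_
  cases side v <;> simp [sg]

/-- the ordinary vertices of colours of `Ga` are balanced -/
lemma DS_bound : 0 ≤ (∑ v : V, sg (X.side v) * (if v ∉ U ∧ X.c v ∈ X.Ga then 1 else 0)) ∧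
    (∑ v : V, sg (X.side v) * (if v ∉ U ∧ X.c v ∈ X.Ga then 1 else 0)) ≤ 1 := by
  -- sums over the atoms
  have h1 : ∀ (Q : ZMod (2 * r + 1) → Prop) [DecidablePred Q],
      (∑ v : V, sg (X.side v) * (if v ∉ U ∧ Q (X.sub v) then 1 else 0)) =
      ∑ p : ZMod (2 * m + 1) × ZMod (2 * r + 1), if Q p.2 then
        (((cls U X.at' {((true, p) : Atom m r)}).card : ℤ) -
          ((cls U X.at' {((false, p) : Atom m r)}).card : ℤ)) else 0 := by
    intro Q _
    have h2 : ∀ v : V, sg (X.side v) * (if v ∉ U ∧ Q (X.sub v) then 1 else 0) =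
        ∑ p : ZMod (2 * m + 1) × ZMod (2 * r + 1), if Q p.2 then
          ((if v ∈ cls U X.at' {((true, p) : Atom m r)} then 1 else 0) -
            (if v ∈ cls U X.at' {((false, p) : Atom m r)} then (1 : ℤ) else 0)) else 0 := by
      intro v
      rw [Finset.sum_eq_single (X.cell v, X.sub v)]
      · simp only [mem_cls', mem_singleton, Ctx.at', Prod.mk.injEq, and_true]
        by_cases hU : v ∈ U
        · simp [hU]
        · by_cases hQ : Q (X.sub v)
          · cases X.side v <;> simp [hU, hQ, sg]
          · simp [hQ]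
      · intro p _ hp
        have h3 : ∀ s : Bool, v ∉ cls U X.at' {((s, p) : Atom m r)} := by
          intro s h
          rw [mem_cls', mem_singleton] at h
          apply hp
          have := congrArg Prod.snd h.2
          exact this.symm
        simp [h3]
      · intro h
        exact absurd (mem_univ _) h
    rw [Finset.sum_congr rfl (fun v _ => h2 v), Finset.sum_comm]
    refine Finset.sum_congr rfl fun p _ => ?_
    by_cases hQ : Q p.2
    · simp only [hQ, if_true]
      rw [Finset.sum_sub_distrib, Finset.sum_boole, Finset.sum_boole]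
      simp
    · simp [hQ]
  have hle : ∀ p : ZMod (2 * m + 1) × ZMod (2 * r + 1),
      0 ≤ (((cls U X.at' {((true, p) : Atom m r)}).card : ℤ) -
          ((cls U X.at' {((false, p) : Atom m r)}).card : ℤ)) := by
    intro p
    have h3 : (cls U X.at' {((false, p) : Atom m r)}).card ≤
      (cls U X.at' {((true, p) : Atom m r)}).card := X.atle p.1 p.2
    omega
  have h2 : ∀ v : V, (if v ∉ U ∧ X.c v ∈ X.Ga then (1 : ℤ) else 0) =
      if v ∉ U ∧ X.sub v ∈ X.GS then 1 else 0 := by
    intro v
    by_cases hU : v ∈ U
    · simp [hU]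
    · have h3 : X.c v ∈ X.Ga ↔ X.sub v ∈ X.GS := by
        constructor
        · intro h
          by_contra hs
          exact disjoint_left.1 (X.PalL _ hs) (X.cP v hU) (mem_union_left _ h)
        · intro h
          exact X.PalG _ h (X.cP v hU)
      simp [hU, h3]
  have h3 := h1 (fun s => s ∈ X.GS)
  have h4 := h1 (fun _ => True)
  have h5 : (∑ v : V, sg (X.side v) * (if v ∉ U ∧ True then 1 else 0)) = X.p := by
    have h6 : ∀ v : V, sg (X.side v) * (if v ∉ U ∧ True then 1 else 0) =
        sg (X.side v) - (if v ∈ U then sg (X.side v) else 0) := by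
      intro v
      by_cases hU : v ∈ U <;> simp [hU]
    rw [Finset.sum_congr rfl (fun v _ => h6 v), Finset.sum_sub_distrib, imb_univ X,
      Finset.sum_ite_mem, univ_inter, ← imb_sum]
    have h7 : imb X.side U = 0 := by
      unfold imb
      have h8 : ∀ s, U ∩ sd X.side s = univ.filter (fun u => u ∈ U ∧ X.side u = s) := by
        intro s
        ext v
        simp [sd]
      rw [h8, h8, X.Ueq]
      ring
    rw [h7]
    ring
  have h6 := X.p1
  simp only [h2]
  rw [h3]
  constructor
  · apply Finset.sum_nonneg
    intro p _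
    split_ifs
    · exact hle p
    · exact le_rfl
  · rw [h5] at h4
    have h7 : (∑ p : ZMod (2 * m + 1) × ZMod (2 * r + 1), if p.2 ∈ X.GS then
        (((cls U X.at' {((true, p) : Atom m r)}).card : ℤ) -
          ((cls U X.at' {((false, p) : Atom m r)}).card : ℤ)) else 0) ≤
        ∑ p : ZMod (2 * m + 1) × ZMod (2 * r + 1), if True then
        (((cls U X.at' {((true, p) : Atom m r)}).card : ℤ) -
          ((cls U X.at' {((false, p) : Atom m r)}).card : ℤ)) else 0 := by
      apply Finset.sum_le_sum
      intro p _
      rw [if_pos trivial]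
      split_ifs
      · exact le_rfl
      · exact hle p
    rw [← h4] at h7
    refine h7.trans ?_
    exact_mod_cast h6

/-- the forbidden colours -/
lemma DF_bound (S : Finset (Fin k)) :
    |∑ v : V, sg (X.side v) * ((S ∩ F v).card : ℤ)| ≤ 2 * U.card := by
  refine (Finset.abs_sum_le_sum_abs _ _).trans ?_
  have h1 : ∀ v : V, |sg (X.side v) * ((S ∩ F v).card : ℤ)| ≤ if v ∈ U then 2 else 0 := by
    intro v
    have h2 : |sg (X.side v)| = 1 := by
      cases X.side v <;> simp [sg]
    rw [abs_mul, h2, one_mul, Nat.abs_cast]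
    have h3 : (S ∩ F v).card ≤ (F v).card := card_le_card inter_subset_right
    split_ifs with hU
    · have h4 := X.F2 v hU
      exact_mod_cast h3.trans h4
    · rw [X.F0 v hU]
      simp
  refine (Finset.sum_le_sum (fun v _ => h1 v)).trans ?_
  rw [← Finset.sum_filter, Finset.sum_const, nsmul_eq_mul]
  have h3 : (univ.filter (fun v => v ∈ U)).card = U.card := by
    congr 1
    ext v
    simp
  rw [h3]
  exact le_of_eq (by ring)

end INSAux

end Pool.Agent.Work.MP_db9399_exp.helper38
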